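import Pool.Agent.Lib.MP_4b91fc_lc.GH.Stm4

set_option autoImplicit false

/-!
# `#GRAPHS` is hard for `#P_1`: assembly of the pieces
-/

namespace Pool.Agent.Lib.MP_4b91fc_lc.GH

open Finset Pool.Agent.PolyTime Turing

open scoped Nat

/-- everything about binary numbers -/
theorem asm_arith (bmul : S_bmul) (bsub : S_bsub) (ble : S_ble) (bdiv : S_bdiv) (bmod : S_bmod)
    (bun : S_bun) (blp : S_blp) (bpr : S_bpr) : Arith where
  mul := bmul
  sub := bsub
  le := ble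
  div := bdiv ble bsub
  mod := bmod bmul bsub ble bdiv
  un := bun
  listProd := blp bmul
  prod := (bpr bmul bsub ble bdiv bun blp).1
  sum := (bpr bmul bsub ble bdiv bun blp).2.1
  pow := (bpr bmul bsub ble bdiv bun blp).2.2.1
  fact := (bpr bmul bsub ble bdiv bun blp).2.2.2.1
  choose := (bpr bmul bsub ble bdiv bun blp).2.2.2.2

/-- the refined sums from `U` -/
theorem asm_ev (ptn : S_ptn) (zee : S_zee) (cc : S_cc) (burn : S_burn) (de : S_def)
    (parts : S_parts) (fn : S_fn) (intp : S_intp) (l1t : S_l1t) (l1d : S_l1d) (l1 : S_l1)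
    (t1 : S_t1) (t2 : S_t2) (hi : S_hi) (clu : S_clu) (l2d : S_l2d) (l2 : S_l2) (hev : S_ev) :
    ∀ (ks : List ℕ) (n l : ℕ) (v : List ℕ), ks.Nodup → (∀ k ∈ ks, 2 ≤ k) → v.length = ks.length →
      ev numGraphs ks n l v = FN ks n l v :=
  hev (l1 ptn fn intp (l1d ptn zee cc burn fn l1t))
    (l2 ptn fn intp (l2d fn t1 t2 hi clu ptn zee cc de parts))

/-- the algorithm counts the solutions of a relational system -/
theorem asm_alg (ptn : S_ptn) (zee : S_zee) (cc : S_cc) (fn : S_fn) (w1 : S_w1) (w2 : S_w2)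
    (w3 : S_w3) (ms : S_ms) (jn : S_jn) (tt1 : S_tt1) (tt2 : S_tt2) (tt : S_tt) (cl : S_cl)
    (dg : S_dg) (rs : S_rs) (aev : S_aev)
    (hev : ∀ (ks : List ℕ) (n l : ℕ) (v : List ℕ), ks.Nodup → (∀ k ∈ ks, 2 ≤ k) →
      v.length = ks.length → ev numGraphs ks n l v = FN ks n l v) :
    ∀ (m S B H : ℕ) (a : Fin m → ℕ) (pi : Fin m → Fin m → ℕ), TyOK m S B H a pi →
      ∀ (R : RS m) (num : (Fin m → ℕ) → (Fin m → ℕ) → Bool),
        algR (ev numGraphs) R num S B H a pi = ∑ X ∈ Sol R num S B, wtX B X :=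
  fun m S B H a pi h R num =>
    (aev hev m S B H a pi h R num).trans (rs w1 w2 m S B H a pi h
      (dg ptn zee fn ms jn tt1 tt2 tt w1 w3 cl cc m S B H a pi h) R num)

/-- the algorithm computes the number of accepting computations -/
theorem asm_GG (zee : S_zee) (np : S_np) (ty1 : S_ty1) (pb : S_pb) (pa : S_pa)
    (zz : S_zz) (st1 : S_st1) (st2 : S_st2) (st : S_st) (xc : S_xc) (bk : S_bk) (tot : S_tot)
    (wx : S_wx) (wd : S_wd) (ch : S_ch) (wi : S_wi) (gd : S_gd) (n0 : S_n0) (n1 : S_n1) (n2 : S_n2)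
    (n3 : S_n3) (n3v : S_n3v) (n4 : S_n4) (n5 : S_n5) (f1 : S_f1)
    (halg : ∀ (m S B H : ℕ) (a : Fin m → ℕ) (pi : Fin m → Fin m → ℕ), TyOK m S B H a pi →
      ∀ (R : RS m) (num : (Fin m → ℕ) → (Fin m → ℕ) → Bool),
        algR (ev numGraphs) R num S B H a pi = ∑ X ∈ Sol R num S B, wtX B X) :
    ∀ (N : NTM) (p : Polynomial ℕ), N.RunsIn p → ∀ n : ℕ, GG N p numGraphs n = N.numAcc n :=
  f1 halg (ty1 np) (wd st bk tot wx pb pa zz st1 st2 xc zee) (gd ch pb wi)
    (n5 n0 n1 n4 n2 n3 n3v) pb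

/-- the algorithm runs in polynomial time, relative to `U` -/
theorem asm_GGtime (arith : Arith) (pin : S_pin) (pl1 : S_pl1) (pl2 : S_pl2) (pev : S_pev)
    (pfs : S_pfs) (ptu : S_ptu) (pt2 : S_pt2) (prd : S_prd) (pal : S_pal) (np : S_np)
    (ty2 : S_ty2) (pb : S_pb) (ch : S_ch) (wi : S_wi) (ppr : S_ppr) (pfi : S_pfi) (pss : S_pss)
    (pnm : S_pnm) (f2 : S_f2) :
    ∀ (N : NTM) (p : Polynomial ℕ) (α : Type) (_ : SCode α) (U : α → ℕ → ℕ),
      PB (fun q : α × ℕ => U q.1 q.2) → PB (fun q : α × ℕ => GG N p (U q.1) q.2) :=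
  f2 arith (pal arith pfs ptu pt2 (prd arith pfs (pev arith pin pl1 pl2))) (ty2 np)
    (pss arith pfi ppr pfs ch pb wi) (pnm arith pfi ppr pfs ch pb wi)

/-- the algorithm uses only polynomially many values of `U` -/
theorem asm_GGloc (arith : Arith) (loc : S_loc) (lal : S_lal) (np : S_np) (ty2 : S_ty2)
    (pfs : S_pfs) (pb : S_pb) (ch : S_ch) (wi : S_wi) (ppr : S_ppr) (pfi : S_pfi) (pss : S_pss)
    (f3 : S_f3) :
    ∀ (N : NTM) (p : Polynomial ℕ), ∃ β : Polynomial ℕ, ∀ (U U' : ℕ → ℕ) (n : ℕ),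
      (∀ i ≤ β.eval n, U i = U' i) → GG N p U n = GG N p U' n :=
  f3 (lal loc) (ty2 np) (pss arith pfi ppr pfs ch pb wi)

/-- the second part of the theorem -/
theorem asm_two (m2 : S_m2)
    (h : ∀ f : ℕ → ℕ, IsSharpP1 f → ∃ (p : Polynomial ℕ) (G : List Bool → List Bool),
      Nonempty (TM2ComputableInPolyTime (fun w : List Bool => w) (fun w : List Bool => w) G) ∧
      ∀ n : ℕ, G (query n ((List.range (p.eval n + 1)).map numGraphs)) = Nat.bits (f n))
    (hU : Nonempty (TM2ComputableInPolyTime (fun n : ℕ => List.replicate n true) Nat.bits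
      numGraphs)) (f : ℕ → ℕ) (hf : IsSharpP1 f) :
    Nonempty (TM2ComputableInPolyTime (fun n : ℕ => List.replicate n true) Nat.bits f) := by
  obtain ⟨p, G, hG, hn⟩ := h f hf
  obtain ⟨T⟩ := m2 numGraphs p G hU hG
  refine ⟨{ T with
    outputsFun := fun n => ?_ }⟩
  have h1 := T.outputsFun n
  rw [hn n] at h1
  exact h1

end Pool.Agent.Lib.MP_4b91fc_lc.GH
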