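import Mathlib

set_option autoImplicit false

/-!
# Exact counting of unlabelled graphs is hard for `#P_1`: definitions, part I

`U_n` is the sum of `2 ^ cc μ / zee μ` over the multisets `μ` of positive integers with sum `n`.
-/

namespace Pool.Agent.Lib.MP_4b91fc_lc.GH

open Finset

open scoped Nat

/-! ## Partitions and their weights -/

/-- the multisets of positive integers with sum `n` -/
def Ptn (n : ℕ) : Finset (Multiset ℕ) :=
  (univ : Finset (Nat.Partition n)).image (fun p => p.parts)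

/-- the order of the centraliser of a permutation with cycle lengths `μ` -/
def zee (μ : Multiset ℕ) : ℕ := ∏ k ∈ μ.toFinset, k ^ μ.count k * (μ.count k)!

/-- the sum of `gcd k x` over the parts `x` -/
def gs (k : ℕ) (μ : Multiset ℕ) : ℕ := (μ.map (fun x => Nat.gcd k x)).sum

/-- the sum of `gcd x y` over the parts `x` of `μ` and `y` of `ν` -/
def qq (μ ν : Multiset ℕ) : ℕ := (μ.map (fun x => gs x ν)).sum

/-- the number of odd parts -/
def od (μ : Multiset ℕ) : ℕ := μ.countP (fun x => x % 2 = 1)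

/-- the number of orbits on unordered pairs of a permutation with cycle lengths `μ` -/
def cc (μ : Multiset ℕ) : ℕ := (qq μ μ - od μ) / 2

/-- the weight of a partition -/
def ww (μ : Multiset ℕ) : ℚ := 2 ^ cc μ / zee μ

/-- no part `1`, exactly `l` parts, no part in `ks`, and the sums `gs k` for `k` in `ks` are the
entries of `v` -/
def Sel (ks : List ℕ) (l : ℕ) (v : List ℕ) (μ : Multiset ℕ) : Prop :=
  1 ∉ μ ∧ μ.card = l ∧ (∀ k ∈ ks, k ∉ μ) ∧ ks.map (fun k => gs k μ) = v

instance (ks : List ℕ) (l : ℕ) (v : List ℕ) : DecidablePred (Sel ks l v) := fun μ => by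
  unfold Sel
  infer_instance

/-- the refined sum -/
def Fq (ks : List ℕ) (n l : ℕ) (v : List ℕ) : ℚ := ∑ μ ∈ (Ptn n).filter (Sel ks l v), ww μ

/-- the refined sum, times `n!`, as a natural number -/
def FN (ks : List ℕ) (n l : ℕ) (v : List ℕ) : ℕ :=
  ∑ μ ∈ (Ptn n).filter (Sel ks l v), n ! / zee μ * 2 ^ cc μ

/-! ## Interpolation -/

/-- coefficients of the interpolation formula -/
def kap (R m y0 j : ℕ) : ℕ :=
  ∑ i ∈ range (R - m + 1), (y0 + i - 1).choose i * (m + i).choose j

/-- `m!` times the coefficient of the falling factorial of degree `m` of a polynomial of degree at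
most `R` with the values `D j` at `y0 + j` -/
def interpN (R m y0 : ℕ) (D : ℕ → ℕ) : ℕ :=
  (∑ j ∈ range (R + 1), if j % 2 = m % 2 then kap R m y0 j * D j else 0) -
    ∑ j ∈ range (R + 1), if j % 2 = m % 2 then 0 else kap R m y0 j * D j

/-! ## The first level: from `U` to the sums over partitions without part `1` -/

/-- the first number of vertices used -/
def N1 (u : ℕ) : ℕ := (u + 8) ^ 6

/-- a digit in base `2 ^ N` -/
def dig1 (U : ℕ → ℕ) (u l N : ℕ) : ℕ :=
  N ! * U N * 2 ^ (N * (u - l)) / 2 ^ (N.choose 2) % 2 ^ N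

/-- the sum over the partitions of `u` with `l` parts, all at least `2`, times `u!` -/
def lev1 (U : ℕ → ℕ) (u l : ℕ) : ℕ :=
  if 2 * l ≤ u then
    interpN (2 * (u - l)) u (N1 u) (fun j => dig1 U u l (N1 u + j)) /
      2 ^ (u * (u - l) - u * (u - 1) / 2)
  else 0

/-! ## The next levels: one more statistic `gs k` -/

/-- the number of orbits on pairs for `N` cycles of length `k` -/
def e2 (k N : ℕ) : ℕ := k * N.choose 2 + N * (k / 2)

def sN (k u l : ℕ) : ℕ := u + k * l + k + 2

/-- the first multiplicity of `k` used -/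
def N2 (k u l : ℕ) : ℕ := sN k u l ^ 12

def E2 (k u l : ℕ) : ℕ := sN k u l ^ 4

def L2 (k u l : ℕ) : ℕ := (u + k * (u + k * l))!

/-- the statistics of `μ` together with `N` parts `k` -/
def shv (ks : List ℕ) (k N : ℕ) (v : List ℕ) : List ℕ :=
  List.zipWith (fun x y => x + N * Nat.gcd y k) v ks

/-- a digit in base `2 ^ N` -/
def dig2 (F : ℕ → ℕ → List ℕ → ℕ) (ks : List ℕ) (k u l g : ℕ) (v : List ℕ) (N : ℕ) : ℕ :=
  F (k * N + u) (N + l) (shv ks k N v) * L2 k u l * 2 ^ E2 k u l * k ^ (N + u) * (N + u)! /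
    ((k * N + u)! * 2 ^ (e2 k N + N * g)) % 2 ^ N

/-- the sum with one more statistic -/
def lev2 (F : ℕ → ℕ → List ℕ → ℕ) (ks : List ℕ) (k u l g : ℕ) (v : List ℕ) : ℕ :=
  if g ≤ u then
    interpN (2 * u + k * l) u (N2 k u l + u)
        (fun j => dig2 F ks k u l g v (N2 k u l + j)) / (k ^ u * L2 k u l * 2 ^ E2 k u l)
  else 0

/-- the refined sums computed from `U` -/
def ev (U : ℕ → ℕ) : List ℕ → ℕ → ℕ → List ℕ → ℕ
  | [], n, l, _ => lev1 U n l
  | _ :: _, _, _, [] => 0
  | k :: ks, n, l, g :: v => lev2 (ev U ks) ks k n l g v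

end Pool.Agent.Lib.MP_4b91fc_lc.GH
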