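import Pool.Agent.Lib.MP_4b91fc_lc.GH.Defs

set_option autoImplicit false

/-!
# Exact counting of unlabelled graphs is hard for `#P_1`: definitions, part II

Tuples of finite sets of pairwise coprime integers, with prescribed sums of greatest common divisors.
-/

namespace Pool.Agent.Lib.MP_4b91fc_lc.GH

open Finset

open scoped Nat

/-! ## Sets of pairwise coprime numbers -/

/-- a finite set of pairwise coprime integers, all at least `2` -/
def PCs (X : Finset ℕ) : Prop :=
  (∀ x ∈ X, 2 ≤ x) ∧ ∀ x ∈ X, ∀ y ∈ X, x ≠ y → Nat.Coprime x y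

/-- the sum of all `gcd x y` -/
def qs (X Y : Finset ℕ) : ℕ := ∑ x ∈ X, ∑ y ∈ Y, Nat.gcd x y

/-- every element of `X` divides an element of `Y` -/
def Dvs (X Y : Finset ℕ) : Prop := ∀ x ∈ X, ∃ y ∈ Y, x ∣ y

/-- the elements of `X` are coprime to the elements of `Y` -/
def Cop (X Y : Finset ℕ) : Prop := ∀ x ∈ X, ∀ y ∈ Y, Nat.Coprime x y

instance (X : Finset ℕ) : Decidable (PCs X) := by unfold PCs; infer_instance

instance (X Y : Finset ℕ) : Decidable (Dvs X Y) := by unfold Dvs; infer_instance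

instance (X Y : Finset ℕ) : Decidable (Cop X Y) := by unfold Cop; infer_instance

/-! ## Type numbers -/

/-- The type numbers `a i` (`i < m`): `gcd (a i) (a j) = pi i j` for `i ≠ j`, all prime factors are
larger than `B`, the sizes of the `a i` are comparable, the numbers `pi i j` (`i < j`) have different
orders of magnitude. -/
structure TyOK (m S B H : ℕ) (a : Fin m → ℕ) (pi : Fin m → Fin m → ℕ) : Prop where
  hm : 0 < m
  hS : 1 ≤ S
  hSB : S ≤ B
  sym : ∀ i j, pi i j = pi j i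
  gcd_a : ∀ i j, i ≠ j → Nat.gcd (a i) (a j) = pi i j
  one_lt : ∀ i, 1 < a i
  big : ∀ (i : Fin m) (p : ℕ), p.Prime → p ∣ a i → B < p
  comp : ∀ i j, a i * S ≤ B * a j
  small : ∀ i j, i ≠ j → B * pi i j < a i
  sep : ∀ d : Fin m → Fin m → ℤ, (∀ i j, |d i j| ≤ (B : ℤ) ^ 2) → (∃ i j, i < j ∧ d i j ≠ 0) →
    (H : ℤ) ≤ |∑ i, ∑ j, if i < j then 2 * (pi i j : ℤ) * d i j else 0|
  top : ∀ k, (∑ i, ∑ j, if i < j then 2 * pi i j * B ^ 2 else 0) + H ≤ a k
  bits : (B ! * 2 ^ (2 * B + 2)) ^ m < 2 ^ H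

/-- the bound `B` for a given bound `S` -/
def bB (m S : ℕ) : ℕ := 2 ^ (m + 2) * S

/-- the number of bits `H` -/
def bH (m S : ℕ) : ℕ := (m + 1) * (bB m S + 2) ^ 2

/-- multisets of positive integers with sum at most `B` -/
def MS (B : ℕ) : Finset (Multiset ℕ) := (range (B + 1)).biUnion Ptn

/-- the tuples of multisets which are counted by one query -/
def TT {m : ℕ} (B : ℕ) (a l s : Fin m → ℕ) : Finset (Fin m → Multiset ℕ) :=
  (Fintype.piFinset (fun _ : Fin m => MS B)).filter (fun Y =>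
    (∀ i, (Y i).card = l i ∧ 1 ∉ Y i) ∧ ∑ i, a i * (Y i).sum = ∑ i, a i * s i)

/-- the partition coding a tuple of multisets -/
def join {m : ℕ} (a : Fin m → ℕ) (Y : Fin m → Multiset ℕ) : Multiset ℕ :=
  ∑ i, (Y i).map (fun x => 2 * a i * x)

/-- the list of parts which are not allowed, and whose statistics are prescribed -/
def qks {m : ℕ} (a : Fin m → ℕ) : List ℕ := List.ofFn (fun i => 2 * a i) ++ [2]

/-- the prescribed statistics -/
def qv {m : ℕ} (a : Fin m → ℕ) (pi : Fin m → Fin m → ℕ) (l : Fin m → ℕ) : List ℕ :=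
  List.ofFn (fun i => 2 * (a i * l i + ∑ j, if j = i then 0 else pi i j * l j)) ++ [2 * ∑ i, l i]

/-- the sum prescribed by `q` and the witness `w` -/
def sw {m : ℕ} (w : Fin m → Fin m) (l : Fin m → ℕ) (q : Fin m → Fin m → ℕ) (i : Fin m) : ℕ :=
  q i (w i) + l i - l i * l (w i)

/-- the exponent of two of the wanted partitions -/
def qe {m : ℕ} (a : Fin m → ℕ) (pi : Fin m → Fin m → ℕ) (l s : Fin m → ℕ)
    (q : Fin m → Fin m → ℕ) : ℕ :=
  ∑ i, a i * (s i + l i * (l i - 1)) + ∑ i, ∑ j, if i < j then 2 * pi i j * q i j else 0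

/-- the weighted number of tuples with given cardinalities `l` and sums of gcds `q`, read off from
the refined sum `F` -/
def Rdig {m : ℕ} (F : List ℕ → ℕ → ℕ → List ℕ → ℕ) (B H : ℕ) (a : Fin m → ℕ)
    (pi : Fin m → Fin m → ℕ) (w : Fin m → Fin m) (l : Fin m → ℕ) (q : Fin m → Fin m → ℕ) : ℕ :=
  F (qks a) (2 * ∑ i, a i * sw w l q i) (∑ i, l i) (qv a pi l) * (∏ i, (2 * a i) ^ l i) * B ! ^ m /
    ((2 * ∑ i, a i * sw w l q i)! * 2 ^ qe a pi l (sw w l q) q) % 2 ^ H

/-- the weight of a tuple of sets -/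
def wtX {m : ℕ} (B : ℕ) (X : Fin m → Finset ℕ) : ℕ := ∏ i, B ! / ∏ x ∈ X i, x

/-- the tuples of sets counted by `Rdig` -/
def CL {m : ℕ} (B : ℕ) (w : Fin m → Fin m) (l : Fin m → ℕ) (q : Fin m → Fin m → ℕ) :
    Finset (Fin m → Finset ℕ) :=
  (Fintype.piFinset (fun _ : Fin m => (Icc 2 B).powerset)).filter (fun X =>
    (∀ i, PCs (X i) ∧ (X i).card = l i ∧ Dvs (X i) (X (w i))) ∧
    ∀ i j, i < j → qs (X i) (X j) = q i j)

/-! ## Relational systems -/

/-- A system of relations between `m` sets of pairwise coprime numbers: `dv i j` requires that the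
elements of `X i` divide elements of `X j`, `cp i j` requires that `X i` and `X j` are coprime. -/
structure RS (m : ℕ) where
  w : Fin m → Fin m
  dv : Fin m → Fin m → Bool
  cp : Fin m → Fin m → Bool
  hw : ∀ i, w i ≠ i ∧ dv i (w i) = true
  hd : ∀ i j, dv i j = true → i ≠ j
  hc : ∀ i j, cp i j = true → i ≠ j

/-- the solutions of a relational system with a condition on the cardinalities and the sums -/
def Sol {m : ℕ} (R : RS m) (num : (Fin m → ℕ) → (Fin m → ℕ) → Bool) (S B : ℕ) :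
    Finset (Fin m → Finset ℕ) :=
  (Fintype.piFinset (fun _ : Fin m => (Icc 2 B).powerset)).filter (fun X =>
    (∀ i, PCs (X i)) ∧ (∀ i j, R.dv i j = true → Dvs (X i) (X j)) ∧
    (∀ i j, R.cp i j = true → Cop (X i) (X j)) ∧
    num (fun i => (X i).card) (fun i => ∑ x ∈ X i, x) = true ∧
    ∑ i, (X i).card ≤ S ∧ ∑ i, ∑ x ∈ X i, x ≤ S)

/-- the condition on the numbers `l i` and `q i j`; `q` is used for `i < j` only -/
def okq {m : ℕ} (R : RS m) (num : (Fin m → ℕ) → (Fin m → ℕ) → Bool) (S : ℕ)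
    (l : Fin m → ℕ) (q : Fin m → Fin m → ℕ) : Bool :=
  decide ((∀ i, l i * l (R.w i) ≤ q i (R.w i) + l i) ∧
    (∀ i j, R.dv i j = true → q i j + l i = l i * l j + sw R.w l q i) ∧
    (∀ i j, R.cp i j = true → q i j = l i * l j) ∧
    ∑ i, l i ≤ S ∧ ∑ i, sw R.w l q i ≤ S) && num l (sw R.w l q)

/-- a symmetric function from its values above the diagonal -/
def symq {m : ℕ} (q : Fin m → Fin m → ℕ) (i j : Fin m) : ℕ := if i < j then q i j else q j i

/-- the algorithm: the sum of `Rdig` over all admissible parameters -/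
def algR {m : ℕ} (F : List ℕ → ℕ → ℕ → List ℕ → ℕ) (R : RS m)
    (num : (Fin m → ℕ) → (Fin m → ℕ) → Bool) (S B H : ℕ) (a : Fin m → ℕ)
    (pi : Fin m → Fin m → ℕ) : ℕ :=
  ∑ l ∈ Fintype.piFinset (fun _ : Fin m => range (S + 1)),
    ∑ q ∈ Fintype.piFinset (fun i : Fin m => Fintype.piFinset (fun j : Fin m =>
      if i < j then range (B ^ 2 + 1) else {0})),
      if okq R num S l (symq q) = true then Rdig F B H a pi R.w l (symq q) else 0

end Pool.Agent.Lib.MP_4b91fc_lc.GH
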