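import Pool.Agent.Lib.MP_4b91fc_lc.GH.Defs2

set_option autoImplicit false

/-!
# Exact counting of unlabelled graphs is hard for `#P_1`: definitions, part III

Words with constraints as tuples of sets of pairwise coprime numbers.
-/

namespace Pool.Agent.Lib.MP_4b91fc_lc.GH

open Finset

open scoped Nat

/-! ## Words -/

/-- A word problem: a finite alphabet, `r` binary relations, `b` unary predicates. -/
structure WP where
  A : Type
  [finA : Fintype A]
  [decA : DecidableEq A]
  r : ℕ
  Rel : Fin r → A → A → Bool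
  b : ℕ
  Un : Fin b → A → Bool

attribute [instance] WP.finA WP.decA

/-- The word `f` of length `M` is admissible: the letters at the positions `k` and `k + e i` are related
by `Rel i`, the letters at the positions `k` with `x j ≤ k < y j` satisfy `Un j`. -/
def WP.Ok (P : WP) (M : ℕ) (e : Fin P.r → ℕ) (x y : Fin P.b → ℕ) (f : Fin M → P.A) : Prop :=
  (∀ (i : Fin P.r) (k l : Fin M), (l : ℕ) = k + e i → P.Rel i (f k) (f l) = true) ∧
  (∀ (j : Fin P.b) (k : Fin M), x j ≤ (k : ℕ) → (k : ℕ) < y j → P.Un j (f k) = true)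

/-- the number of admissible words -/
noncomputable def WP.count (P : WP) (M : ℕ) (e : Fin P.r → ℕ) (x y : Fin P.b → ℕ) : ℕ :=
  Nat.card {f : Fin M → P.A // P.Ok M e x y f}

/-! ## Primes -/

/-- the prime with number `i` (starting from `pr 0 = 2`) -/
noncomputable def pr (i : ℕ) : ℕ := Nat.nth Nat.Prime i

/-- the sum of the `t` primes with the numbers `i, i + 1, ...` -/
noncomputable def psum (i t : ℕ) : ℕ := ∑ k ∈ range t, pr (i + k)

/-- the product of the `t` primes with the numbers `i, i + 1, ...` -/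
noncomputable def pprod (i t : ℕ) : ℕ := ∏ k ∈ range t, pr (i + k)

/-- the set of the `t` primes with the numbers `i, i + 1, ...` -/
noncomputable def pset (i t : ℕ) : Finset ℕ := (range t).image (fun k => pr (i + k))

/-- the set of the products of the primes with the numbers `i + (M - 1 - k)` and `j + k`, `k < M` -/
noncomputable def zset (i j M : ℕ) : Finset ℕ :=
  (range M).image (fun k => pr (i + (M - 1 - k)) * pr (j + k))

/-- the sum of the elements of `zset` -/
noncomputable def zsum (i j M : ℕ) : ℕ := ∑ k ∈ range M, pr (i + (M - 1 - k)) * pr (j + k)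

/-! ## The parameters -/

/-- length of the words, numbers of primes, shifts, ends of the intervals -/
structure Par (r b : ℕ) where
  M : ℕ
  iC : ℕ
  iD : ℕ
  it : ℕ
  e : Fin r → ℕ
  x : Fin b → ℕ
  y : Fin b → ℕ

/-- the shifts, and the shift `0` -/
def Par.sh {r b : ℕ} (p : Par r b) : Option (Fin r) → ℕ
  | none => 0
  | some i => p.e i

/-- admissible parameters -/
structure Par.Good {r b : ℕ} (p : Par r b) : Prop where
  M_pos : 0 < p.M
  lowC : 4 * p.M ≤ pr p.iC
  winC : ∀ k < p.M, pr (p.iC + k) < 2 * pr p.iC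
  lowD : 4 * p.M * pr p.iC ≤ pr p.iD
  winD : ∀ (o : Option (Fin r)), ∀ k < p.M, pr (p.iD + p.sh o + k) < 2 * pr p.iD
  topC : p.iC + p.M ≤ p.it
  topD : ∀ o : Option (Fin r), p.iD + p.sh o + p.M ≤ p.it
  xy : ∀ j, p.x j ≤ p.y j
  yM : ∀ j, p.y j ≤ p.M

/-! ## The relational system of a word problem -/

/-- The sorts.  Meaning (letter at position `k` ~ prime number `iC + (M - 1 - k)` and prime number
`iD + k`): `Pt`, `Pt'` the first `it` primes; `Pc` the first `iC` primes; `C` the next `M` primes;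
`P o` the first `iD + sh o` primes; `D o` the next `M` primes; `Z o`, `Z' o` the products
`pr (iC + (M - 1 - k)) * pr (iD + sh o + k)`; `PI j` the first `iC + M - y j` primes; `I j` the primes of
the positions in the interval `[x j, y j)`; `Ca a`, `Da a`, `Za o a` the elements of `C`, `D none`, `Z o`
of the positions of the letter `a`. -/
inductive Srt (A : Type) (r b : ℕ)
  | Pt
  | Pt'
  | Pc
  | C
  | P (o : Option (Fin r))
  | D (o : Option (Fin r))
  | Z (o : Option (Fin r))
  | Z' (o : Option (Fin r))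
  | PI (j : Fin b)
  | I (j : Fin b)
  | Ca (a : A)
  | Da (a : A)
  | Za (o : Option (Fin r)) (a : A)
  deriving DecidableEq, Fintype

/-- the sorts of a word problem -/
abbrev WP.S (P : WP) : Type := Srt P.A P.r P.b

/-- the witness -/
def wS {A : Type} {r b : ℕ} : Srt A r b → Srt A r b
  | .Pt => .Pt'
  | .Pt' => .Pt
  | .Pc => .Pt
  | .C => .Z none
  | .P _ => .Pt
  | .D o => .Z o
  | .Z o => .Z' o
  | .Z' o => .Z o
  | .PI _ => .Pt
  | .I _ => .C
  | .Ca _ => .C
  | .Da _ => .D none
  | .Za o _ => .Z o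

/-- the required divisibilities -/
def dvS {A : Type} [DecidableEq A] {r b : ℕ} : Srt A r b → Srt A r b → Bool
  | .Pt, .Pt' => true
  | .Pt', .Pt => true
  | .Pc, .Pt => true
  | .P _, .Pt => true
  | .PI _, .Pt => true
  | .C, .Z _ => true
  | .D o, .Z o' => decide (o = o')
  | .Z o, .Z' o' => decide (o = o')
  | .Z' o, .Z o' => decide (o = o')
  | .I _, .C => true
  | .Ca _, .C => true
  | .Ca a, .Za _ a' => decide (a = a')
  | .Za o _, .Z o' => decide (o = o')
  | .Da _, .D none => true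
  | .Da a, .Za none a' => decide (a = a')
  | _, _ => false

/-- the required coprimalities -/
def cpS (P : WP) : P.S → P.S → Bool
  | .C, .Pc => true
  | .D o, .P o' => decide (o = o')
  | .I j, .PI j' => decide (j = j')
  | .Ca a, .Ca a' => decide (a ≠ a')
  | .Za (some i) a, .Da a' => !P.Rel i a a'
  | .I j, .Ca a => !P.Un j a
  | _, _ => false

/-- the number of sorts -/
def WP.m (P : WP) : ℕ := Fintype.card P.S

/-- numbering of the sorts -/
noncomputable def WP.eq (P : WP) : P.S ≃ Fin P.m := Fintype.equivFin P.S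

/-- the relational system -/
noncomputable def WP.R (P : WP) : RS P.m where
  w i := P.eq (wS (P.eq.symm i))
  dv i j := dvS (P.eq.symm i) (P.eq.symm j)
  cp i j := cpS P (P.eq.symm i) (P.eq.symm j)
  hw i := by
    constructor
    · intro h
      have h1 : wS (P.eq.symm i) = P.eq.symm i := by
        apply P.eq.injective
        rw [h, Equiv.apply_symm_apply]
      revert h1
      cases P.eq.symm i <;> simp [wS]
    · rw [Equiv.symm_apply_apply]
      cases P.eq.symm i <;> simp [wS, dvS]
  hd i j h := by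
    rintro rfl
    revert h
    cases P.eq.symm i <;> simp [dvS]
  hc i j h := by
    rintro rfl
    revert h
    cases h : P.eq.symm i <;> simp [cpS]

/-- the numerical conditions on the cardinalities `l` and the sums `s` -/
def NumS (P : WP) (p : Par P.r P.b) (l s : P.S → ℕ) : Prop :=
  (l .Pt = p.it ∧ s .Pt = psum 0 p.it ∧ l .Pt' = p.it ∧ s .Pt' = psum 0 p.it) ∧
  (l .Pc = p.iC ∧ s .Pc = psum 0 p.iC ∧ l .C = p.M ∧ s .C = psum p.iC p.M) ∧
  (∀ o, l (.P o) = p.iD + p.sh o ∧ s (.P o) = psum 0 (p.iD + p.sh o) ∧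
    l (.D o) = p.M ∧ s (.D o) = psum (p.iD + p.sh o) p.M ∧
    l (.Z o) = p.M ∧ s (.Z o) = zsum p.iC (p.iD + p.sh o) p.M ∧
    l (.Z' o) = p.M ∧ s (.Z' o) = zsum p.iC (p.iD + p.sh o) p.M ∧
    (∀ a, l (.Za o a) = l (.Ca a)) ∧
    ∑ a, s (.Za o a) = zsum p.iC (p.iD + p.sh o) p.M) ∧
  (∀ j, l (.PI j) = p.iC + p.M - p.y j ∧ s (.PI j) = psum 0 (p.iC + p.M - p.y j) ∧
    l (.I j) = p.y j - p.x j ∧ s (.I j) = psum (p.iC + p.M - p.y j) (p.y j - p.x j)) ∧
  (∀ a, l (.Da a) = l (.Ca a)) ∧ ∑ a, l (.Ca a) = p.M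

noncomputable instance (P : WP) (p : Par P.r P.b) (l s : P.S → ℕ) : Decidable (NumS P p l s) := by
  unfold NumS
  infer_instance

/-- the numerical conditions, for the numbered sorts -/
noncomputable def WP.num (P : WP) (p : Par P.r P.b) (l s : Fin P.m → ℕ) : Bool :=
  decide (NumS P p (fun t => l (P.eq t)) (fun t => s (P.eq t)))

/-- the total sum -/
noncomputable def WP.SS (P : WP) (p : Par P.r P.b) : ℕ :=
  2 * psum 0 p.it + psum 0 p.iC + 2 * psum p.iC p.M + psum p.iD p.M +
    ∑ o : Option (Fin P.r), (psum 0 (p.iD + p.sh o) + psum (p.iD + p.sh o) p.M +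
      3 * zsum p.iC (p.iD + p.sh o) p.M) +
    ∑ j : Fin P.b, (psum 0 (p.iC + p.M - p.y j) + psum (p.iC + p.M - p.y j) (p.y j - p.x j))

/-- the total product -/
noncomputable def WP.ZZ (P : WP) (p : Par P.r P.b) : ℕ :=
  pprod 0 p.it ^ 2 * pprod 0 p.iC * pprod p.iC p.M ^ 2 * pprod p.iD p.M *
    (∏ o : Option (Fin P.r), (pprod 0 (p.iD + p.sh o) * pprod (p.iD + p.sh o) p.M *
      (pprod p.iC p.M * pprod (p.iD + p.sh o) p.M) ^ 3)) *
    ∏ j : Fin P.b, (pprod 0 (p.iC + p.M - p.y j) * pprod (p.iC + p.M - p.y j) (p.y j - p.x j))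

/-- the sets of a word -/
noncomputable def XX (P : WP) (p : Par P.r P.b) (f : Fin p.M → P.A) : P.S → Finset ℕ
  | .Pt => pset 0 p.it
  | .Pt' => pset 0 p.it
  | .Pc => pset 0 p.iC
  | .C => pset p.iC p.M
  | .P o => pset 0 (p.iD + p.sh o)
  | .D o => pset (p.iD + p.sh o) p.M
  | .Z o => zset p.iC (p.iD + p.sh o) p.M
  | .Z' o => zset p.iC (p.iD + p.sh o) p.M
  | .PI j => pset 0 (p.iC + p.M - p.y j)
  | .I j => pset (p.iC + p.M - p.y j) (p.y j - p.x j)
  | .Ca a => (univ.filter (fun k => f k = a)).image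
      (fun k : Fin p.M => pr (p.iC + (p.M - 1 - (k : ℕ))))
  | .Da a => (univ.filter (fun k => f k = a)).image (fun k : Fin p.M => pr (p.iD + (k : ℕ)))
  | .Za o a => (univ.filter (fun k => f k = a)).image
      (fun k : Fin p.M => pr (p.iC + (p.M - 1 - (k : ℕ))) * pr (p.iD + p.sh o + (k : ℕ)))

/-- the conditions on a family of sets indexed by the sorts -/
def SolS (P : WP) (p : Par P.r P.b) (X : P.S → Finset ℕ) : Prop :=
  (∀ t, PCs (X t)) ∧ (∀ t t', dvS t t' = true → Dvs (X t) (X t')) ∧
  (∀ t t', cpS P t t' = true → Cop (X t) (X t')) ∧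
  NumS P p (fun t => (X t).card) (fun t => ∑ x ∈ X t, x)

/-! ## The choice of the parameters -/

/-- the least `i` with `L ≤ pr i` and `pr (i + K) < 2 pr i` -/
noncomputable def win (L K : ℕ) : ℕ := sInf {i | L ≤ pr i ∧ pr (i + K) < 2 * pr i}

/-- the parameters for given `M`, `e`, `x`, `y` -/
noncomputable def mkPar {r b : ℕ} (M : ℕ) (e : Fin r → ℕ) (x y : Fin b → ℕ) : Par r b where
  M := M
  iC := win (4 * M) M
  iD := win (4 * M * pr (win (4 * M) M)) (M + ∑ i, e i)
  it := win (4 * M) M + win (4 * M * pr (win (4 * M) M)) (M + ∑ i, e i) + M + ∑ i, e i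
  e := e
  x := x
  y := y

end Pool.Agent.Lib.MP_4b91fc_lc.GH
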