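import Pool.Agent.Lib.MP_4b91fc_lc.GH.Defs
import Pool.Agent.Lib.MP_4b91fc_lc.Un

set_option autoImplicit false

/-!
# `#GRAPHS` is hard for `#P_1`: statements, part I (zooming)

Each piece `xyz` is a theorem `p_xyz : S_xyz` in `GH/P/xyz.lean`.
-/

namespace Pool.Agent.Lib.MP_4b91fc_lc.GH

open Finset

open scoped Nat

/-! ### Basic facts -/

/-- [ptn] Members, number, decomposition by the multiplicity of `k`.
(1) `Multiset`s of positive integers with sum `n` are exactly the parts of `Nat.Partition n`.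
(2) partitions are images of compositions (`Nat.Partition.ofComposition_surj`, `composition_card`).
(3) `μ = μ.filter (· ≠ k) + replicate (μ.count k) k`. -/
def S_ptn : Prop :=
  (∀ (n : ℕ) (μ : Multiset ℕ), μ ∈ Ptn n ↔ μ.sum = n ∧ 0 ∉ μ) ∧
  (∀ n : ℕ, (Ptn n).card ≤ 2 ^ n) ∧
  (∀ (n k : ℕ), 0 < k → ∀ f : Multiset ℕ → ℚ,
    ∑ μ ∈ Ptn n, f μ = ∑ M ∈ range (n / k + 1),
      ∑ μ ∈ (Ptn (n - k * M)).filter (fun μ => k ∉ μ), f (μ + Multiset.replicate M k))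

/-- [zee] The centraliser orders.  (2): `k ^ a * a!` divides `(k * a)!` and a product of factorials
divides the factorial of the sum (`Nat.multinomial`, or `Nat.factorial_mul_factorial_dvd_factorial_add`
and induction). -/
def S_zee : Prop :=
  (∀ (μ : Multiset ℕ) (k M : ℕ), k ∉ μ →
    zee (μ + Multiset.replicate M k) = k ^ M * M ! * zee μ) ∧
  (∀ μ : Multiset ℕ, 0 ∉ μ → zee μ ∣ μ.sum !) ∧
  (∀ μ : Multiset ℕ, 0 ∉ μ → 0 < zee μ) ∧
  (∀ μ ν : Multiset ℕ, (∀ x ∈ μ, x ∉ ν) → zee (μ + ν) = zee μ * zee ν) ∧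
  (∀ μ : Multiset ℕ, μ.Nodup → zee μ = μ.prod)

/-- [cc] The number of orbits on pairs.  `qq μ μ` is the sum of all `gcd x y`, the diagonal
contributes the sum of the parts, the rest is even; so `qq μ μ` and `od μ` have the same parity. -/
def S_cc : Prop :=
  (∀ μ : Multiset ℕ, 2 * cc μ + od μ = qq μ μ) ∧
  (∀ (k : ℕ) (μ ν : Multiset ℕ), gs k (μ + ν) = gs k μ + gs k ν) ∧
  (∀ μ ν ρ : Multiset ℕ, qq (μ + ν) ρ = qq μ ρ + qq ν ρ ∧ qq ρ (μ + ν) = qq ρ μ + qq ρ ν) ∧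
  (∀ μ ν : Multiset ℕ, qq μ ν = qq ν μ) ∧
  (∀ (μ : Multiset ℕ) (k M : ℕ),
    cc (μ + Multiset.replicate M k) = e2 k M + M * gs k μ + cc μ) ∧
  (∀ μ : Multiset ℕ, 0 ∉ μ → cc μ ≤ μ.sum ^ 2) ∧
  (∀ μ : Multiset ℕ, 0 ∉ μ → qq μ μ ≤ μ.sum * μ.card)

/-- [burn] Burnside's lemma.  Everything is in `Pool/Agent/Lib/MP_4b91fc_lc/{Un,Count,Orb,Cyc}.lean`:
`factorial_mul_numGraphs : n ! * numGraphs n = ∑ σ : Perm (Fin n), 2 ^ orb σ`, `two_orb`, `card_cnt`,
`cnt σ k = σ.partition.parts.count k`; group the permutations by `σ.partition.parts ∈ Ptn n`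
(`2 * orb σ + odd parts = ∑ gcd`, the number of permutations with parts `μ` is `n ! / zee μ`). -/
def S_burn : Prop := ∀ n : ℕ, (numGraphs n : ℚ) = ∑ μ ∈ Ptn n, ww μ

/-- [def] The deficiency inequality.  With `l = μ.card`, `n = μ.sum`, `r` the number of parts
different from `k`:  `2 n l - 2 qq μ μ = ∑_{x,y} (x + y - 2 gcd x y) ≥ ∑_{x,y} |x - y|` and for every
part `x ≠ k`: `∑_y |x - y| ≥ |l x - n| ≥ l - |n - k l|`. -/
def S_def : Prop :=
  ∀ (μ : Multiset ℕ) (k : ℕ), 0 ∉ μ →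
    2 * (qq μ μ : ℤ) + (μ.countP (fun x => x ≠ k) : ℤ) *
      ((μ.card : ℤ) - |(μ.sum : ℤ) - k * μ.card|) ≤ 2 * μ.sum * μ.card

/-- [parts] A bound for the number of parts different from `k`: for `x ≠ k`,
`1 + 2 gcd k x ≤ x + k`. -/
def S_parts : Prop :=
  ∀ (μ : Multiset ℕ) (k : ℕ), 0 < k → 0 ∉ μ → k ∉ μ →
    μ.card + 2 * gs k μ ≤ μ.sum + k * μ.card

/-- [fn] `FN` is `n!` times `Fq` (each `zee μ` divides `n!`). -/
def S_fn : Prop := ∀ (ks : List ℕ) (n l : ℕ) (v : List ℕ), (FN ks n l v : ℚ) = n ! * Fq ks n l v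

/-- [intp] Interpolation in the basis of the falling factorials.  By linearity it suffices to treat
`f (y) = y.descFactorial t`:
`∑_j (-1)^(m+i-j) (m+i).choose j * f (y0 + j) = Δ^(m+i) f (y0) = t.descFactorial (m+i) *
y0.descFactorial (t-m-i)` (zero for `t < m + i`) and
`∑_i (-1)^i (y0+i-1).choose i * y0.choose (t-m-i) = 0` for `t > m` (the coefficient of `z^(t-m)` in
`(1+z)^(-y0) (1+z)^y0`). -/
def S_intp : Prop :=
  ∀ (R m y0 : ℕ) (ω : ℕ → ℚ) (D : ℕ → ℕ), m ≤ R → 1 ≤ y0 → 0 ≤ ω m →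
    (∀ j ∈ range (R + 1), (D j : ℚ) = ∑ t ∈ range (R + 1), ω t * (y0 + j).descFactorial t) →
    (interpN R m y0 D : ℚ) = m ! * ω m

/-! ### The first level -/

/-- [l1t] The tail of the first level is smaller than one.  For a partition `1^(N-t) + μ`, `μ`
without part `1`, `|μ| = t`, with `p` parts, `j' = t - p ≥ j + 1 = u - l + 1`, so `t ≤ 2 j'`
(all parts of `μ` are at least `2`) and `t ≥ j + 2`:
`N ! * 2^(N j - C(N,2)) * ww (μ + 1^(N-t)) = N.descFactorial t * 2^(N j + e2 1 (N-t) + (N-t) p + cc μ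
- C(N,2)) / zee μ`.
If `t ≤ 8 (j + 1)`: the exponent is `-N (j' - j) + t (t + 1) / 2 - t p + cc μ ≤ -N + 2 t^2`;
at most `2^t` partitions `μ`; the sum over these `t` is at most
`(8 j + 9) * (2 N)^(8 j + 8) * 2^(2 (8 j + 8)^2 - N) < 1/2`.
If `t > 8 (j + 1)`: by `S_cc (7)` the exponent is at most `N j + (N (N - j') ) / 2 - (N^2 - N) / 2 =
N j - N j' / 2 + N / 2 ≤ N j - N t / 4 + N / 2 ≤ - N t / 8` (as `N t / 8 ≥ N (j + 1)`); the sum is at
most `∑_t (2 N)^t 2^(- N t / 8) < 1/2`.  (`N ≥ (u + 8)^6` is very generous.) -/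
def S_l1t : Prop :=
  S_ptn → S_zee → S_cc →
  ∀ u l N : ℕ, 2 * l ≤ u → N1 u ≤ N →
    ∑ μ ∈ (Ptn N).filter (fun μ => μ.card + (u - l) < N), (N ! : ℚ) * ww μ * 2 ^ (N * (u - l)) <
      2 ^ (N.choose 2)

/-- [l1d] The digits of the first level.  With `j = u - l`: `N ! * U N * 2^(N j) / 2^C(N,2)` is the
sum over `μ ∈ Ptn N` of `N ! * ww μ * 2^(N j - C(N,2))`; write `μ = ν + 1^(N-t)`, `ν` without part
`1`, `|ν| = t` with `p` parts, `j' = t - p = N - μ.card`; the term is `N.descFactorial t *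
2^(N (j - j') + t j' - t (t-1)/2) * ww ν`.  The terms with `j' > j` sum to less than one (`S_l1t`), those
with `j' < j` are (for every `t`, `j'`, summed over `ν`) integer multiples of `2^N` (as
`N.descFactorial t * Fq [] t p []` is an integer), those with `j' = j` sum to the right hand side,
which is an integer and smaller than `2^N` (as `Fq [] t p [] ≤ 2^t * 2^(t^2)`, `t ≤ 2 j ≤ 2 u`). -/
def S_l1d : Prop :=
  S_ptn → S_zee → S_cc → S_burn → S_fn → S_l1t →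
  ∀ u l N : ℕ, 2 * l ≤ u → N1 u ≤ N →
    (dig1 numGraphs u l N : ℚ) = ∑ t ∈ range (2 * (u - l) + 1),
      (if u - l ≤ t then 2 ^ (t * (u - l) - t * (t - 1) / 2) * Fq [] t (t - (u - l)) [] else 0) *
        N.descFactorial t

/-- [l1] The first level.  From `S_l1d` and `S_intp` (with `R = 2 (u - l)`, `m = u`); for `2 l > u`
there is no partition of `u` into `l` parts `≥ 2`. -/
def S_l1 : Prop :=
  S_ptn → S_fn → S_intp →
  (∀ u l N : ℕ, 2 * l ≤ u → N1 u ≤ N →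
    (dig1 numGraphs u l N : ℚ) = ∑ t ∈ range (2 * (u - l) + 1),
      (if u - l ≤ t then 2 ^ (t * (u - l) - t * (t - 1) / 2) * Fq [] t (t - (u - l)) [] else 0) *
        N.descFactorial t) →
  ∀ u l : ℕ, lev1 numGraphs u l = FN [] u l []

/-! ### The next levels

Fixed: `ks`, `k ≥ 2`, `k ∉ ks`, `u l g` with `g ≤ u`, `v`, and `N ≥ N2 k u l`.  Put
`s = sN k u l`, `E = E2 k u l`, `L = L2 k u l`, `n = k N + u`.  The partitions `λ` counted by
`Fq ks n (N + l) (shv ks k N v)` are `λ = μ + k^M` with `k ∉ μ`, `M = N - b` (`b` an integer,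
`-u ≤ b`, as `k M ≤ n`), `|μ| = u + k b`, `l + b` parts. -/

/-- the contribution of a partition `λ` of `k N + u`, scaled -/
def vt (k u l g N : ℕ) (μ : Multiset ℕ) : ℚ :=
  ww μ * L2 k u l * 2 ^ E2 k u l * k ^ (N + u) * (N + u)! / 2 ^ (e2 k N + N * g)

/-- `λ` is in the tail: with `μ` the parts different from `k`,
`|μ| - gs k μ > u - g` -/
def tl (k u g : ℕ) (μ : Multiset ℕ) : Prop :=
  (u : ℤ) - g < (μ.filter (fun x => x ≠ k)).sum - gs k (μ.filter (fun x => x ≠ k))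

instance (k u g : ℕ) : DecidablePred (tl k u g) := fun μ => by
  unfold tl
  infer_instance

/-- [t1] The part of the tail with few parts different from `k` (`b ≤ 16 (s + 1)`).
The term of `λ = μ + k^(N-b)`, `h = gs k μ - k b ≤ g - 1`, is
`L 2^E k^(u+b) * (N+u)!/(N-b)! * 2^x / zee μ`,
`x = N h - b h - k b (b - 1) / 2 - b (k / 2) + cc μ - N g` (from `S_cc`), where
`(N - b) h ≤ (N - b) (g - 1) ≤ N (g - 1) + u g + b^+`, `- k b (b - 1) / 2 - b (k / 2) ≤ 0` (all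
integers `b`), `cc μ ≤ |μ|^2 ≤ (u + 16 k (s + 1))^2`, `(N+u)!/(N-b)! ≤ (N + u)^(u+b)`; at most `2^|μ|`
multisets `μ`.  All together at most `2^(-N)` times `2` to the power
`(about) 4 s^4 + s^4 + (17 s + 16) * 2 log2 (N + s) + s^2 + 16 s + 16 + 2 * (s + 16 s (s+1))^2 < N - 1`. -/
def S_t1 : Prop :=
  S_ptn → S_zee → S_cc →
  ∀ k u l g N : ℕ, 2 ≤ k → g ≤ u → N2 k u l ≤ N →
    ∑ μ ∈ (Ptn (k * N + u)).filter (fun μ => μ.card = N + l ∧ tl k u g μ ∧
      N ≤ μ.count k + 16 * (sN k u l + 1)), vt k u l g N μ < 1 / 2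

/-- [t2] The partitions with many parts different from `k` (`b > 16 (s + 1)`).  By `S_def` with
`r = l + b`: `2 cc λ ≤ qq λ λ ≤ n (N + l) - (l + b) (N + l - |u - k l|) / 2`, and `|u - k l| ≤ s`,
`2 e2 k N ≥ k N^2 - N`; so `cc λ - e2 k N ≤ (N (s + 1) + s^2 - b (N - s) / 2) / 2 ≤
- (5/32) b N + s^2 / 2`, and the term of `λ` is at most
`L 2^E (k (N + u))^(u+b) * 2^(cc λ - e2 k N)`; at most `2^(u + k b)` multisets `μ` for each `b`; the sum
over `b > 16 (s + 1)` of `L 2^E (k (N + u))^(u+b) 2^(u+kb) 2^(s^2/2 - 5bN/32)` is small. -/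
def S_t2 : Prop :=
  S_ptn → S_zee → S_cc → S_def →
  ∀ k u l g N : ℕ, 2 ≤ k → g ≤ u → N2 k u l ≤ N →
    ∑ μ ∈ (Ptn (k * N + u)).filter (fun μ => μ.card = N + l ∧
      ¬ N ≤ μ.count k + 16 * (sN k u l + 1)), vt k u l g N μ < 1 / 2

/-- [hi] The partitions of `k N + u` with `N + l` parts outside the tail: with `b = N - μ.count k`,
`h = gs k (the parts different from k) - k b ≥ g` one has `b ≤ u + k l` (by `S_parts`:
`l + b + u ≤ k l + 2 (u - h)`), and the value `vt` is a natural number for `h = g`, and `2^N` times a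
natural number for `h > g`: the exponent of `2` is `E + N (h - g) - b h - k b (b-1)/2 - b (k/2) + cc μ`
with `E ≥ |b h + k b (b-1)/2 + b (k/2)|`, and `zee μ ∣ |μ|! ∣ L`. -/
def S_hi : Prop :=
  S_ptn → S_zee → S_cc → S_parts →
  ∀ k u l g N : ℕ, 2 ≤ k → g ≤ u → N2 k u l ≤ N →
    ∀ μ ∈ Ptn (k * N + u), μ.card = N + l → ¬ tl k u g μ →
      ((u : ℤ) - g = (μ.filter (fun x => x ≠ k)).sum - gs k (μ.filter (fun x => x ≠ k)) →
        ∃ z : ℕ, vt k u l g N μ = z) ∧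
      (¬ (u : ℤ) - g = (μ.filter (fun x => x ≠ k)).sum - gs k (μ.filter (fun x => x ≠ k)) →
        ∃ z : ℕ, vt k u l g N μ = 2 ^ N * z)

/-- the coefficients of the polynomial in `N + u`; here `t = u + b` -/
noncomputable def om (ks : List ℕ) (k u l g : ℕ) (v : List ℕ) (t : ℕ) : ℚ :=
  let b : ℤ := (t : ℤ) - u
  if 0 ≤ (u : ℤ) + k * b ∧ 0 ≤ (l : ℤ) + b ∧ 0 ≤ (g : ℤ) + k * b ∧
      (∀ p ∈ v.zip ks, 0 ≤ (p.1 : ℤ) + b * (Nat.gcd p.2 k : ℕ)) then
    (k : ℚ) ^ t * L2 k u l *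
      (2 : ℚ) ^ ((E2 k u l : ℤ) - b * g - k * (b * (b - 1) / 2) - b * (k / 2 : ℕ)) *
      Fq (k :: ks) ((u : ℤ) + k * b).toNat ((l : ℤ) + b).toNat
        (((g : ℤ) + k * b).toNat ::
          (v.zip ks).map (fun p => ((p.1 : ℤ) + b * (Nat.gcd p.2 k : ℕ)).toNat))
  else 0

/-- [clu] The sum of the values `vt` with `h = g` (see `S_hi`).  `λ = μ + k^(N-b)`, `t = u + b`:
`|μ| = u + k b`, `μ` has `l + b` parts, `gs k μ = g + k b`,
`gs y μ = v_y + N gcd y k - (N - b) gcd y k`; `(N + u)! / (N - b)! = (N + u).descFactorial t`; and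
`b ≤ u + k l` by `S_parts`.  Both sides are smaller than `2 ^ N`, as `Fq ≤ 2^|μ| * 2^(|μ|^2)`. -/
def S_clu : Prop :=
  S_ptn → S_zee → S_cc → S_parts →
  ∀ (ks : List ℕ) (k u l g : ℕ) (v : List ℕ) (N : ℕ), 2 ≤ k → k ∉ ks → v.length = ks.length →
    g ≤ u → N2 k u l ≤ N →
    (∑ μ ∈ (Ptn (k * N + u)).filter (fun μ => Sel ks (N + l) (shv ks k N v) μ ∧
        (u : ℤ) - g = (μ.filter (fun x => x ≠ k)).sum - gs k (μ.filter (fun x => x ≠ k))),
      vt k u l g N μ = ∑ t ∈ range (2 * u + k * l + 1), om ks k u l g v t * (N + u).descFactorial t) ∧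
    ∑ t ∈ range (2 * u + k * l + 1), om ks k u l g v t * (N + u).descFactorial t < 2 ^ N

/-- [l2d] The digits: `dig2 (FN ks) ... N` is the floor, modulo `2 ^ N`, of the sum of `vt` over the
partitions counted by `Fq ks (k N + u) (N + l) (shv ks k N v)`; use `S_t1`, `S_t2` (the tail is smaller
than one; note that `vt ≥ 0` and that the partitions of `S_t2` which are not in the tail only help),
`S_hi` and `S_clu`. -/
def S_l2d : Prop :=
  S_fn → S_t1 → S_t2 → S_hi → S_clu → S_ptn → S_zee → S_cc → S_def → S_parts →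
  ∀ (ks : List ℕ) (k u l g : ℕ) (v : List ℕ) (N : ℕ), 2 ≤ k → k ∉ ks → v.length = ks.length →
    g ≤ u → N2 k u l ≤ N →
    (dig2 (FN ks) ks k u l g v N : ℚ) =
      ∑ t ∈ range (2 * u + k * l + 1), om ks k u l g v t * (N + u).descFactorial t

/-- [l2] The next level, from `S_l2d` and `S_intp` with `R = 2 u + k l`, `m = u`,
`y0 = N2 k u l + u`, `ω = om ..`; `om .. u = k^u * L * 2^E * Fq (k :: ks) u l (g :: v)`.  For `g > u`
both sides are zero, as `gs k μ ≤ μ.sum`. -/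
def S_l2 : Prop :=
  S_ptn → S_fn → S_intp →
  (∀ (ks : List ℕ) (k u l g : ℕ) (v : List ℕ) (N : ℕ), 2 ≤ k → k ∉ ks → v.length = ks.length →
    g ≤ u → N2 k u l ≤ N →
    (dig2 (FN ks) ks k u l g v N : ℚ) =
      ∑ t ∈ range (2 * u + k * l + 1), om ks k u l g v t * (N + u).descFactorial t) →
  ∀ (ks : List ℕ) (k u l g : ℕ) (v : List ℕ), 2 ≤ k → k ∉ ks → v.length = ks.length →
    lev2 (FN ks) ks k u l g v = FN (k :: ks) u l (g :: v)

/-- [ev] All levels, by induction on `ks`. -/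
def S_ev : Prop :=
  (∀ u l : ℕ, lev1 numGraphs u l = FN [] u l []) →
  (∀ (ks : List ℕ) (k u l g : ℕ) (v : List ℕ), 2 ≤ k → k ∉ ks → v.length = ks.length →
    lev2 (FN ks) ks k u l g v = FN (k :: ks) u l (g :: v)) →
  ∀ (ks : List ℕ) (n l : ℕ) (v : List ℕ), ks.Nodup → (∀ k ∈ ks, 2 ≤ k) → v.length = ks.length →
    ev numGraphs ks n l v = FN ks n l v

/-- [loc] `ev U ks n l v` uses only values of `U` at polynomially bounded arguments.  Induction on the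
length `r` of `ks`: `lev2` calls `ev U ks` at `k N + u`, `N + l` with `N ≤ N2 k u l + 2 u + k l`, and
`lev1` calls `U` at arguments at most `N1 u + 2 u`. -/
def S_loc : Prop :=
  ∀ r : ℕ, ∃ β : Polynomial ℕ, ∀ (U U' : ℕ → ℕ) (X : ℕ), (∀ i ≤ β.eval X, U i = U' i) →
    ∀ (ks : List ℕ) (n l : ℕ) (v : List ℕ), ks.length = r → (∀ k ∈ ks, k ≤ X) → n ≤ X → l ≤ X →
      ev U ks n l v = ev U' ks n l v

end Pool.Agent.Lib.MP_4b91fc_lc.GH
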