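import Pool.Agent.Lib.MP_4b91fc_lc.GH.Defs
import Pool.Agent.Lib.MP_4b91fc_lc.PRun

set_option autoImplicit false

/-!
# `#GRAPHS` is hard for `#P_1`: statements, polynomial time

`PTime` is the class of `Pool/Agent/Lib/PolyTime/{Typed,Eq}.lean` (natural numbers in unary), `Big` are
natural numbers in binary (`Pool/Agent/Lib/MP_4b91fc_lc/{Tab,PBig,PTab,PNat}.lean`: addition, product
with small numbers, quotient by small numbers, shifts, sums over lists, gcd, primality; see also
`Pool/Agent/Lib/MP_b4f117_lc/Arith.lean`: quotient and remainder of unary numbers).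
-/

namespace Pool.Agent.Lib.MP_4b91fc_lc.GH

open Finset Pool.Agent.PolyTime

open scoped Nat

/-- `f` is computable in polynomial time, the result being written in binary -/
def PB {α : Type} [SCode α] (f : α → ℕ) : Prop := PTime (fun a => (⟨f a⟩ : Big))

/-- [bmul] Product of binary numbers (shift and add: fold over the bits of the first factor, most
significant bit first, state `s ↦ 2 s + b * g`). -/
def S_bmul : Prop := ∀ (α : Type) (_ : SCode α) (f g : α → ℕ), PB f → PB g → PB (fun a => f a * g a)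

/-- [bsub] Truncated difference of binary numbers (for instance `2^K + x - y`, with `K` a bound for the
sizes: complement the bits of `y` padded to length `K` and add `x + 1`, then test and remove bit `K`;
or fold with a borrow as in `addStep`). -/
def S_bsub : Prop := ∀ (α : Type) (_ : SCode α) (f g : α → ℕ), PB f → PB g → PB (fun a => f a - g a)

/-- [ble] Comparison of binary numbers. -/
def S_ble : Prop := ∀ (α : Type) (_ : SCode α) (f g : α → ℕ), PB f → PB g →
  PTime (fun a => decide (f a ≤ g a))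

/-- [bdiv] Quotient of binary numbers (long division: fold over the bits of `f a`, most significant
bit first, state: quotient and remainder, the remainder stays smaller than the divisor; `x / 0 = 0`). -/
def S_bdiv : Prop := S_ble → S_bsub →
  ∀ (α : Type) (_ : SCode α) (f g : α → ℕ), PB f → PB g → PB (fun a => f a / g a)

/-- [bmod] Remainder: `f - g * (f / g)`. -/
def S_bmod : Prop := S_bmul → S_bsub → S_ble → S_bdiv →
  ∀ (α : Type) (_ : SCode α) (f g : α → ℕ), PB f → PB g → PB (fun a => f a % g a)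

/-- [bun] From unary to binary (iterate `+ 1`, or sum over a list of ones). -/
def S_bun : Prop := ∀ (α : Type) (_ : SCode α) (f : α → ℕ), PTime f → PB f

/-- [blp] Products over lists (the size of a product of `n` numbers smaller than `2^M` is at most
`n M`). -/
def S_blp : Prop := S_bmul →
  ∀ (α β : Type) (_ : SCode α) (_ : SCode β) (l : α → List β) (f : α → β → ℕ), PTime l →
    PB (fun p : α × β => f p.1 p.2) → PB (fun a => ((l a).map (fun b => f a b)).prod)

/-- [bpr] Products and sums over ranges, powers, factorials, binomial coefficients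
(`n.choose k = n! / (k! (n-k)!)` for `k ≤ n`). -/
def S_bpr : Prop := S_bmul → S_bsub → S_ble → S_bdiv → S_bun → S_blp →
  (∀ (α : Type) (_ : SCode α) (n : α → ℕ) (f : α → ℕ → ℕ), PTime n →
    PB (fun p : α × ℕ => f p.1 p.2) → PB (fun a => ∏ i ∈ range (n a), f a i)) ∧
  (∀ (α : Type) (_ : SCode α) (n : α → ℕ) (f : α → ℕ → ℕ), PTime n →
    PB (fun p : α × ℕ => f p.1 p.2) → PB (fun a => ∑ i ∈ range (n a), f a i)) ∧
  (∀ (α : Type) (_ : SCode α) (f g : α → ℕ), PB f → PTime g → PB (fun a => f a ^ g a)) ∧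
  (∀ (α : Type) (_ : SCode α) (f : α → ℕ), PTime f → PB (fun a => (f a)!)) ∧
  (∀ (α : Type) (_ : SCode α) (f g : α → ℕ), PTime f → PTime g → PB (fun a => (f a).choose (g a)))

/-- everything about binary numbers -/
structure Arith : Prop where
  mul : ∀ (α : Type) (_ : SCode α) (f g : α → ℕ), PB f → PB g → PB (fun a => f a * g a)
  sub : ∀ (α : Type) (_ : SCode α) (f g : α → ℕ), PB f → PB g → PB (fun a => f a - g a)
  le : ∀ (α : Type) (_ : SCode α) (f g : α → ℕ), PB f → PB g → PTime (fun a => decide (f a ≤ g a))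
  div : ∀ (α : Type) (_ : SCode α) (f g : α → ℕ), PB f → PB g → PB (fun a => f a / g a)
  mod : ∀ (α : Type) (_ : SCode α) (f g : α → ℕ), PB f → PB g → PB (fun a => f a % g a)
  un : ∀ (α : Type) (_ : SCode α) (f : α → ℕ), PTime f → PB f
  listProd : ∀ (α β : Type) (_ : SCode α) (_ : SCode β) (l : α → List β) (f : α → β → ℕ),
    PTime l → PB (fun p : α × β => f p.1 p.2) → PB (fun a => ((l a).map (fun b => f a b)).prod)
  prod : ∀ (α : Type) (_ : SCode α) (n : α → ℕ) (f : α → ℕ → ℕ), PTime n →
    PB (fun p : α × ℕ => f p.1 p.2) → PB (fun a => ∏ i ∈ range (n a), f a i)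
  sum : ∀ (α : Type) (_ : SCode α) (n : α → ℕ) (f : α → ℕ → ℕ), PTime n →
    PB (fun p : α × ℕ => f p.1 p.2) → PB (fun a => ∑ i ∈ range (n a), f a i)
  pow : ∀ (α : Type) (_ : SCode α) (f g : α → ℕ), PB f → PTime g → PB (fun a => f a ^ g a)
  fact : ∀ (α : Type) (_ : SCode α) (f : α → ℕ), PTime f → PB (fun a => (f a)!)
  choose : ∀ (α : Type) (_ : SCode α) (f g : α → ℕ), PTime f → PTime g →
    PB (fun a => (f a).choose (g a))

/-- [pin] `kap` and `interpN` in polynomial time. -/
def S_pin : Prop := Arith →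
  ∀ (α : Type) (_ : SCode α) (D : α → ℕ → ℕ) (R m y0 : α → ℕ), PTime R → PTime m → PTime y0 →
    PB (fun p : α × ℕ => D p.1 p.2) → PB (fun a => interpN (R a) (m a) (y0 a) (D a))

/-- [pl1] The first level in polynomial time, relative to `U`. -/
def S_pl1 : Prop := Arith → S_pin →
  ∀ (α : Type) (_ : SCode α) (U : α → ℕ → ℕ), PB (fun p : α × ℕ => U p.1 p.2) →
    PB (fun p : α × ℕ × ℕ => lev1 (U p.1) p.2.1 p.2.2)

/-- [pl2] The next level in polynomial time; the argument is `(a, ks, (k, u, l, g), v)`. -/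
def S_pl2 : Prop := Arith → S_pin →
  ∀ (α : Type) (_ : SCode α) (F : α → List ℕ → ℕ → ℕ → List ℕ → ℕ),
    PB (fun p : α × List ℕ × ℕ × ℕ × List ℕ => F p.1 p.2.1 p.2.2.1 p.2.2.2.1 p.2.2.2.2) →
    PB (fun p : α × List ℕ × (ℕ × ℕ × ℕ × ℕ) × List ℕ =>
      lev2 (F p.1 p.2.1) p.2.1 p.2.2.1.1 p.2.2.1.2.1 p.2.2.1.2.2.1 p.2.2.1.2.2.2 p.2.2.2)

/-- [pev] For every fixed number `r` of statistics, `ev` in polynomial time; the argument is
`(a, ks, n, l, v)`.  Induction on `r` with `S_pl1`, `S_pl2`. -/
def S_pev : Prop := Arith → S_pin → S_pl1 → S_pl2 →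
  ∀ (r : ℕ) (α : Type) (_ : SCode α) (U : α → ℕ → ℕ), PB (fun p : α × ℕ => U p.1 p.2) →
    PB (fun p : α × List ℕ × ℕ × ℕ × List ℕ =>
      if p.2.1.length = r then ev (U p.1) p.2.1 p.2.2.1 p.2.2.2.1 p.2.2.2.2 else 0)

end Pool.Agent.Lib.MP_4b91fc_lc.GH
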