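import Pool.Agent.Lib.MP_4b91fc_lc.GH.Defs2
import Pool.Agent.Lib.MP_4b91fc_lc.GH.Stm1
import Pool.Agent.Lib.MP_4b91fc_lc.GH.StmP

set_option autoImplicit false

/-!
# `#GRAPHS` is hard for `#P_1`: statements, part II (tuples of sets)
-/

namespace Pool.Agent.Lib.MP_4b91fc_lc.GH

open Finset Pool.Agent.PolyTime

open scoped Nat

/-! ### Inequalities for sums of greatest common divisors -/

/-- [w1] For pairwise coprime `Y` and `x ≥ 2`: the numbers `gcd x y`, `y ∈ Y`, are pairwise coprime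
divisors of `x`, so their product divides `x` and `∑ (gcd x y - 1) ≤ ∏ gcd x y - 1 ≤ x - 1`, with
equality iff one of them is `x` (then the others are one): `(1 + a) (1 + b) - 1 ≥ a + b` with equality
iff `a b = 0`. -/
def S_w1 : Prop :=
  ∀ X Y : Finset ℕ, (∀ x ∈ X, 2 ≤ x) → PCs Y →
    qs X Y + X.card ≤ X.card * Y.card + ∑ x ∈ X, x ∧
    (qs X Y + X.card = X.card * Y.card + ∑ x ∈ X, x ↔ Dvs X Y)

/-- [w2] -/
def S_w2 : Prop :=
  ∀ X Y : Finset ℕ, (∀ x ∈ X, 1 ≤ x) →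
    X.card * Y.card ≤ qs X Y ∧ (qs X Y = X.card * Y.card ↔ Cop X Y)

/-- [w3] Multisets: equality iff pairwise coprime (then there are no repetitions, as the elements are
at least `2`). -/
def S_w3 : Prop :=
  ∀ μ : Multiset ℕ, (∀ x ∈ μ, 2 ≤ x) →
    μ.sum + μ.card * (μ.card - 1) ≤ qq μ μ ∧
    (qq μ μ = μ.sum + μ.card * (μ.card - 1) ↔ ∃ X : Finset ℕ, PCs X ∧ μ = X.val)

/-- [ms] Multisets with bounded sum. -/
def S_ms : Prop := S_ptn →
  (∀ (B : ℕ) (μ : Multiset ℕ), μ ∈ MS B ↔ 0 ∉ μ ∧ μ.sum ≤ B) ∧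
  (∀ B : ℕ, (MS B).card ≤ 2 ^ (B + 1)) ∧
  (∀ (B : ℕ) (μ : Multiset ℕ), μ ∈ MS B → ∀ x ∈ μ, 1 ≤ x ∧ x ≤ B) ∧
  (∀ X : Finset ℕ, qq X.val X.val = qs X X) ∧
  (∀ X Y : Finset ℕ, qq X.val Y.val = qs X Y) ∧
  (∀ (B : ℕ) (μ ν : Multiset ℕ), μ ∈ MS B → ν ∈ MS B → qq μ ν ≤ B ^ 2)

/-! ### Type numbers -/

/-- [jn] The partition `join a Y`: the parts `2 (a i) x`, `x ∈ Y i`.  For `x, y ≤ B` all prime factors of
the `a i` are larger than `x`, `y`, so `gcd (2 a_i x) (2 a_j y) = 2 gcd (a_i, a_j) gcd (x, y)`; parts of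
different types are different (`a_i ∣ a_j y` implies `a_i ∣ a_j`, so `pi i j = a_i`, against `small`);
all parts are even. -/
def S_jn : Prop := S_zee → S_cc →
  ∀ (m S B H : ℕ) (a : Fin m → ℕ) (pi : Fin m → Fin m → ℕ), TyOK m S B H a pi →
    ∀ Y : Fin m → Multiset ℕ, (∀ i, ∀ x ∈ Y i, 1 ≤ x ∧ x ≤ B) →
      zee (join a Y) = ∏ i, (2 * a i) ^ (Y i).card * zee (Y i) ∧
      cc (join a Y) = ∑ i, a i * qq (Y i) (Y i) +
        ∑ i, ∑ j, if i < j then 2 * pi i j * qq (Y i) (Y j) else 0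

/-- [tt1] From tuples to partitions: if `Y ∈ TT B a l s` then `join a Y` is selected.  (`a_i x = a_j`
is impossible: `i = j` gives `x = 1`, `i ≠ j` gives `a_i ∣ a_j`, `pi i j = a_i`, against `small`.) -/
def S_tt1 : Prop := S_ptn → S_ms →
  ∀ (m S B H : ℕ) (a : Fin m → ℕ) (pi : Fin m → Fin m → ℕ), TyOK m S B H a pi →
    ∀ (l s : Fin m → ℕ), ∀ Y ∈ TT B a l s,
      join a Y ∈ Ptn (2 * ∑ i, a i * s i) ∧ Sel (qks a) (∑ i, l i) (qv a pi l) (join a Y)

/-- [tt2] From partitions to tuples.  `gs 2 μ = 2 μ.card` forces all parts to be even, `μ = 2 κ`.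
`gs (2 a_i) μ = 2 ∑ gcd (a_i, κ_j)`; if `m_i` parts `κ_j` are divisible by `a_i`, the other terms are
proper divisors of `a_i`, so at most `a_i / (B + 1)`, there are at most `S ≤ B` of them: the sum is in
`[a_i m_i, a_i (m_i + 1))`; the prescribed value `a_i l_i + ∑ pi_ij l_j` is in
`[a_i l_i, a_i (l_i + 1))` (as `B pi_ij < a_i`, `∑ l ≤ S ≤ B`); so `m_i = l_i`.  A part `κ_j` divisible by
`a_i` and `a_k` is divisible by `a_i a_k / pi_ik > B a_k ≥ ∑ a_i s_i ≥ κ_j` (by `small`; `comp` gives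
`∑ a_i s_i ≤ (max a) S ≤ B a_k`), impossible.  As `∑ l_i` is the number of parts, every part is divisible
by exactly one `a_i`; `Y i` = the quotients, they are at most `B` and different from `1`. -/
def S_tt2 : Prop := S_ptn → S_ms →
  ∀ (m S B H : ℕ) (a : Fin m → ℕ) (pi : Fin m → Fin m → ℕ), TyOK m S B H a pi →
    ∀ (l s : Fin m → ℕ), ∑ i, l i ≤ S → ∑ i, s i ≤ S →
      ∀ μ ∈ Ptn (2 * ∑ i, a i * s i), Sel (qks a) (∑ i, l i) (qv a pi l) μ →
        ∃ Y ∈ TT B a l s, join a Y = μ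

/-- [tt] The sum over the selected partitions is the sum over the tuples (`join a` is injective on
`TT B a l s`: `Y i` consists of the quotients by `2 a_i` of the parts divisible by `2 a_i`). -/
def S_tt : Prop := S_ptn → S_ms → S_tt1 → S_tt2 →
  ∀ (m S B H : ℕ) (a : Fin m → ℕ) (pi : Fin m → Fin m → ℕ), TyOK m S B H a pi →
    ∀ (l s : Fin m → ℕ), ∑ i, l i ≤ S → ∑ i, s i ≤ S → ∀ f : Multiset ℕ → ℚ,
      ∑ μ ∈ (Ptn (2 * ∑ i, a i * s i)).filter (Sel (qks a) (∑ i, l i) (qv a pi l)), f μ =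
        ∑ Y ∈ TT B a l s, f (join a Y)

/-! ### The digit of a tuple -/

/-- [cl] For `Y ∈ TT B a l s`, `s = sw w l q`, the exponent `cc (join a Y)` is `qe a pi l s q` iff
`Y i = (X i).val` for a tuple `X ∈ CL B w l q`; otherwise it differs from it by at least `H`.
`cc (join a Y) - qe = ∑ a_i exc_i + 2 ∑_{i<j} pi_ij (qq (Y i) (Y j) - q_ij)` with
`exc_i = qq (Y i) (Y i) - (Y i).sum - l_i (l_i - 1) ≥ 0` (`S_w3`; use `∑ a_i (Y i).sum = ∑ a_i s_i`).
If some `exc_i > 0`: use `top`.  If all are zero but some `qq (Y i) (Y j) ≠ q_ij`: use `sep`.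
If all are zero and all `qq (Y i) (Y j) = q_ij`, then `Y i = (X i).val` with `PCs (X i)`, and
`S_w1` gives `(Y i).sum ≥ q i (w i) + l i - l i * l (w i) = s i`, hence equality and `Dvs`. -/
def S_cl : Prop := S_w1 → S_w3 → S_ms → S_jn →
  ∀ (m S B H : ℕ) (a : Fin m → ℕ) (pi : Fin m → Fin m → ℕ), TyOK m S B H a pi →
    ∀ (w : Fin m → Fin m) (l : Fin m → ℕ) (q : Fin m → Fin m → ℕ),
      (∀ i, w i ≠ i) → (∀ i j, q i j = q j i) → (∀ i, l i * l (w i) ≤ q i (w i) + l i) →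
      ∑ i, l i ≤ S → ∑ i, sw w l q i ≤ S → (∀ i j, i < j → q i j ≤ B ^ 2) →
      (∀ Y ∈ TT B a l (sw w l q),
        (∃ X ∈ CL B w l q, Y = fun i => (X i).val) ∨
        qe a pi l (sw w l q) q + H ≤ cc (join a Y) ∨
        cc (join a Y) + H ≤ qe a pi l (sw w l q) q) ∧
      (∀ X ∈ CL B w l q, (fun i => (X i).val) ∈ TT B a l (sw w l q) ∧
        cc (join a (fun i => (X i).val)) = qe a pi l (sw w l q) q)

/-- [dg] `Rdig FN` counts the tuples of `CL` with the weight `wtX`: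
`FN .. * ∏ (2 a_i)^(l_i) * B!^m / n! = ∑_{Y ∈ TT} 2^(cc (join a Y)) ∏ B! / zee (Y i)` (`S_fn`, `S_tt`,
`S_jn`; `zee (Y i) ∣ (Y i).sum ! ∣ B !`); by `S_cl` the terms are integer multiples of `2^(qe + H)`, or
their exponent is at most `qe - H` (these sum to less than `2^qe` by `bits` and `S_ms`), or they are
those of `CL` (`zee = ∏` by `S_zee`; the sum of their cofactors is smaller than `2^H`). -/
def S_dg : Prop := S_ptn → S_zee → S_fn → S_ms → S_jn → S_tt1 → S_tt2 → S_tt → S_w1 → S_w3 → S_cl →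
  S_cc →
  ∀ (m S B H : ℕ) (a : Fin m → ℕ) (pi : Fin m → Fin m → ℕ), TyOK m S B H a pi →
    ∀ (w : Fin m → Fin m) (l : Fin m → ℕ) (q : Fin m → Fin m → ℕ),
      (∀ i, w i ≠ i) → (∀ i j, q i j = q j i) → (∀ i, l i * l (w i) ≤ q i (w i) + l i) →
      ∑ i, l i ≤ S → ∑ i, sw w l q i ≤ S → (∀ i j, i < j → q i j ≤ B ^ 2) →
      Rdig FN B H a pi w l q = ∑ X ∈ CL B w l q, wtX B X

/-- [rs] The algorithm counts the solutions of a relational system.  `Sol R num S B` is the disjoint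
union of the sets `CL B R.w l (symq q)` over the admissible parameters (`l` = the cardinalities,
`q i j = qs (X i) (X j)`; `S_w1`, `S_w2`; for `X ∈ CL` the sum of `X i` is `sw R.w l q i`;
`qs (X i) (X j) ≤ S * S ≤ B ^ 2` for solutions). -/
def S_rs : Prop := S_w1 → S_w2 →
  ∀ (m S B H : ℕ) (a : Fin m → ℕ) (pi : Fin m → Fin m → ℕ), TyOK m S B H a pi →
    (∀ (w : Fin m → Fin m) (l : Fin m → ℕ) (q : Fin m → Fin m → ℕ),
      (∀ i, w i ≠ i) → (∀ i j, q i j = q j i) → (∀ i, l i * l (w i) ≤ q i (w i) + l i) →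
      ∑ i, l i ≤ S → ∑ i, sw w l q i ≤ S → (∀ i j, i < j → q i j ≤ B ^ 2) →
      Rdig FN B H a pi w l q = ∑ X ∈ CL B w l q, wtX B X) →
    ∀ (R : RS m) (num : (Fin m → ℕ) → (Fin m → ℕ) → Bool),
      algR FN R num S B H a pi = ∑ X ∈ Sol R num S B, wtX B X

/-- [aev] The algorithm with `ev numGraphs` in place of `FN`: `qks a` has no repetition (the `a i` are
different by `small`, and larger than `1`), all its members are at least `2`. -/
def S_aev : Prop :=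
  (∀ (ks : List ℕ) (n l : ℕ) (v : List ℕ), ks.Nodup → (∀ k ∈ ks, 2 ≤ k) → v.length = ks.length →
    ev numGraphs ks n l v = FN ks n l v) →
  ∀ (m S B H : ℕ) (a : Fin m → ℕ) (pi : Fin m → Fin m → ℕ), TyOK m S B H a pi →
    ∀ (R : RS m) (num : (Fin m → ℕ) → (Fin m → ℕ) → Bool),
      algR (ev numGraphs) R num S B H a pi = algR FN R num S B H a pi

/-- [lal] Locality of the algorithm (`S_loc` with `r = m + 1`; in `algR` only parameters with
`∑ l ≤ S` and `∑ sw ≤ S` call `F`, with `n = 2 ∑ a_i sw_i ≤ 2 X ^ 2`, list entries at most `2 X + 2`). -/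
def S_lal : Prop := S_loc →
  ∀ (m : ℕ) (R : RS m), ∃ β : Polynomial ℕ, ∀ (U U' : ℕ → ℕ) (X : ℕ),
    (∀ i ≤ β.eval X, U i = U' i) →
    ∀ (num : (Fin m → ℕ) → (Fin m → ℕ) → Bool) (S B H : ℕ) (a : Fin m → ℕ)
      (pi : Fin m → Fin m → ℕ), S ≤ X → (∀ i, a i ≤ X) →
      algR (ev U) R num S B H a pi = algR (ev U') R num S B H a pi

/-! ### Existence of type numbers -/

/-- the least prime larger than `x` and not in `L`, searched up to `2 ^ c * x` -/
def np (c x : ℕ) (L : List ℕ) : ℕ :=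
  ((List.range (2 ^ c * x + 1)).find? (fun p => decide (x < p ∧ p.Prime ∧ p ∉ L))).getD 0

/-- [np] Bertrand's postulate (`Nat.exists_prime_lt_and_le_two_mul`) in the `c` intervals
`(2^t x, 2^(t+1) x]`, `t < c`. -/
def S_np : Prop :=
  (∀ (c x : ℕ) (L : List ℕ), 1 ≤ x → L.length < c →
    (np c x L).Prime ∧ x < np c x L ∧ np c x L ≤ 2 ^ c * x ∧ np c x L ∉ L) ∧
  (∀ (c : ℕ) (α : Type) (_ : SCode α) (x : α → ℕ) (L : α → List ℕ), PTime x → PTime L →
    PTime (fun a => np c (x a) (L a)))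

/-- [ty1] Definition of the type numbers.  `B = bB m S`, `H = bH m S`, `G = 8 (m + 1) (B + 2)^2`;
for `i < j`: `pi_ij = np 1 (G^(i m + j + 1)) []` (in `(G^e, 2 G^e]`), `pi_ji = pi_ij`;
`P_i = ∏_{j ≠ i} pi_ij ≤ G^(m^3 + m)`; `Pa = G^(m^3 + 2 m^2 + m + 6)`;
`rho_i = np (m + 1) (Pa / P_i + 1) [rho_0, ..., rho_{i-1}]`, `a_i = P_i rho_i`, so
`Pa < a_i ≤ 2^(m+2) Pa`, all `rho_i` different and larger than all `pi_jk`. -/
def tyG (m S : ℕ) : ℕ := 8 * (m + 1) * (bB m S + 2) ^ 2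

/-- the primes `pi i j` -/
def tyPi (m S : ℕ) (i j : Fin m) : ℕ :=
  if i < j then np 1 (tyG m S ^ ((i : ℕ) * m + j + 1)) []
  else if j < i then np 1 (tyG m S ^ ((j : ℕ) * m + i + 1)) [] else 1

/-- the products `P_i` -/
def tyP (m S : ℕ) (i : Fin m) : ℕ := ∏ j, if j = i then 1 else tyPi m S i j

/-- the size of the type numbers -/
def tyA (m S : ℕ) : ℕ := tyG m S ^ (m ^ 3 + 2 * m ^ 2 + m + 6)

/-- the list of the first `t` numbers `rho_i`, the last one first -/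
def tyRho (m S : ℕ) : ℕ → List ℕ
  | 0 => []
  | t + 1 => np (m + 1) (tyA m S / (if h : t < m then tyP m S ⟨t, h⟩ else 1) + 1) (tyRho m S t) ::
      tyRho m S t

/-- the type numbers -/
def tya (m S : ℕ) (i : Fin m) : ℕ := tyP m S i * (tyRho m S (i + 1)).headD 1

def S_ty1 : Prop := S_np →
  ∀ m S : ℕ, 0 < m → 1 ≤ S → TyOK m S (bB m S) (bH m S) (tya m S) (tyPi m S)

/-- [ty2] The type numbers in polynomial time (in unary; `m` fixed), and a polynomial bound. -/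
def S_ty2 : Prop := S_np →
  ∀ m : ℕ,
    (∀ (α : Type) (_ : SCode α) (S : α → ℕ), PTime S →
      PTime (fun x => bB m (S x)) ∧ PTime (fun x => bH m (S x)) ∧
      (∀ i : Fin m, PTime (fun x => tya m (S x) i)) ∧
      (∀ i j : Fin m, PTime (fun x => tyPi m (S x) i j))) ∧
    ∃ β : Polynomial ℕ, ∀ S : ℕ, bB m S ≤ β.eval S ∧ bH m S ≤ β.eval S ∧
      ∀ i : Fin m, tya m S i ≤ β.eval S

/-! ### Polynomial time -/

/-- [pfs] Finite sums, products, conjunctions with a fixed number of terms, and lists with a fixed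
number of entries. -/
def S_pfs : Prop := Arith →
  ∀ (m : ℕ) (α : Type) (_ : SCode α),
    (∀ f : α → Fin m → ℕ, (∀ i, PB (fun a => f a i)) →
      PB (fun a => ∑ i, f a i) ∧ PB (fun a => ∏ i, f a i)) ∧
    (∀ f : α → Fin m → ℕ, (∀ i, PTime (fun a => f a i)) →
      PTime (fun a => ∑ i, f a i) ∧ PTime (fun a => List.ofFn (f a))) ∧
    (∀ p : α → Fin m → Bool, (∀ i, PTime (fun a => p a i)) →
      PTime (fun a => decide (∀ i, p a i = true)))

/-- [ptu] Sums over tuples of fixed length, in polynomial time: induction on `m`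
(`Fin.consEquiv`, `Fintype.piFinset`), the tuple is passed as a list. -/
def S_ptu : Prop := Arith →
  ∀ (m : ℕ) (α : Type) (_ : SCode α) (bd : α → Fin m → ℕ) (f : α → (Fin m → ℕ) → ℕ),
    (∀ i, PTime (fun a => bd a i)) →
    PB (fun p : α × List ℕ => f p.1 (fun i => p.2.getD i 0)) →
    PB (fun a => ∑ t ∈ Fintype.piFinset (fun i : Fin m => range (bd a i)), f a t)

/-- [pt2] The same for matrices (`m * m` entries, entry `(i, j)` at position `i * m + j` of the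
list). -/
def S_pt2 : Prop := S_ptu → Arith →
  ∀ (m : ℕ) (α : Type) (_ : SCode α) (bd : α → ℕ) (f : α → (Fin m → Fin m → ℕ) → ℕ),
    PTime bd →
    PB (fun p : α × List ℕ => f p.1 (fun i j => p.2.getD (i * m + j) 0)) →
    PB (fun a => ∑ q ∈ Fintype.piFinset (fun i : Fin m => Fintype.piFinset (fun j : Fin m =>
      if i < j then range (bd a) else {0})), f a q)

/-- [prd] `Rdig (ev (U a))` in polynomial time (`m` fixed; the list `qks` has length `m + 1`). -/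
def S_prd : Prop := Arith → S_pfs →
  (∀ (r : ℕ) (α : Type) (_ : SCode α) (U : α → ℕ → ℕ), PB (fun p : α × ℕ => U p.1 p.2) →
    PB (fun p : α × List ℕ × ℕ × ℕ × List ℕ =>
      if p.2.1.length = r then ev (U p.1) p.2.1 p.2.2.1 p.2.2.2.1 p.2.2.2.2 else 0)) →
  ∀ (m : ℕ) (α : Type) (_ : SCode α) (U : α → ℕ → ℕ) (B H : α → ℕ) (a : α → Fin m → ℕ)
    (pi : α → Fin m → Fin m → ℕ) (w : Fin m → Fin m) (l : α → Fin m → ℕ)
    (q : α → Fin m → Fin m → ℕ),
    PB (fun p : α × ℕ => U p.1 p.2) → PTime B → PTime H → (∀ i, PTime (fun x => a x i)) →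
    (∀ i j, PTime (fun x => pi x i j)) → (∀ i, PTime (fun x => l x i)) →
    (∀ i j, PTime (fun x => q x i j)) →
    PB (fun x => Rdig (ev (U x)) (B x) (H x) (a x) (pi x) w (l x) (q x))

/-- [pal] The algorithm in polynomial time. -/
def S_pal : Prop := Arith → S_pfs → S_ptu → S_pt2 →
  (∀ (m : ℕ) (α : Type) (_ : SCode α) (U : α → ℕ → ℕ) (B H : α → ℕ) (a : α → Fin m → ℕ)
    (pi : α → Fin m → Fin m → ℕ) (w : Fin m → Fin m) (l : α → Fin m → ℕ)
    (q : α → Fin m → Fin m → ℕ),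
    PB (fun p : α × ℕ => U p.1 p.2) → PTime B → PTime H → (∀ i, PTime (fun x => a x i)) →
    (∀ i j, PTime (fun x => pi x i j)) → (∀ i, PTime (fun x => l x i)) →
    (∀ i j, PTime (fun x => q x i j)) →
    PB (fun x => Rdig (ev (U x)) (B x) (H x) (a x) (pi x) w (l x) (q x))) →
  ∀ (m : ℕ) (R : RS m) (α : Type) (_ : SCode α) (U : α → ℕ → ℕ)
    (num : α → (Fin m → ℕ) → (Fin m → ℕ) → Bool) (S B H : α → ℕ) (a : α → Fin m → ℕ)
    (pi : α → Fin m → Fin m → ℕ),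
    PB (fun p : α × ℕ => U p.1 p.2) → PTime S → PTime B → PTime H →
    (∀ i, PTime (fun x => a x i)) → (∀ i j, PTime (fun x => pi x i j)) →
    PTime (fun p : α × List ℕ × List ℕ =>
      num p.1 (fun i => p.2.1.getD i 0) (fun i => p.2.2.getD i 0)) →
    PB (fun x => algR (ev (U x)) R (num x) (S x) (B x) (H x) (a x) (pi x))

end Pool.Agent.Lib.MP_4b91fc_lc.GH
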