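import Pool.Agent.Lib.MP_4b91fc_lc.GH.Defs3
import Pool.Agent.Lib.MP_4b91fc_lc.GH.Stm2

set_option autoImplicit false

/-!
# `#GRAPHS` is hard for `#P_1`: statements, part III (words)
-/

namespace Pool.Agent.Lib.MP_4b91fc_lc.GH

open Finset Pool.Agent.PolyTime

open scoped Nat

/-! ### Sets of primes -/

/-- [pb] Facts on `pset` and `zset` (`Nat.nth_strictMono`, `Nat.prime_nth_prime`). -/
def S_pb : Prop :=
  (∀ i, (pr i).Prime) ∧ StrictMono pr ∧
  (∀ p, p.Prime → ∃ i, pr i = p) ∧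
  (∀ i t, PCs (pset i t) ∧ (pset i t).card = t ∧ ∑ x ∈ pset i t, x = psum i t ∧
    ∏ x ∈ pset i t, x = pprod i t) ∧
  (∀ i j M, i + M ≤ j → PCs (zset i j M) ∧ (zset i j M).card = M ∧
    ∑ x ∈ zset i j M, x = zsum i j M ∧ ∏ x ∈ zset i j M, x = pprod i M * pprod j M ∧
    Dvs (pset i M) (zset i j M) ∧ Dvs (pset j M) (zset i j M)) ∧
  (∀ i t i' t', i + t ≤ i' → Cop (pset i t) (pset i' t') ∧ Cop (pset i' t') (pset i t)) ∧
  (∀ i t i' t', i' ≤ i → i + t ≤ i' + t' → pset i t ⊆ pset i' t')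

/-- [pa] A set of `t` pairwise coprime integers `≥ 2`, coprime to the first `i` primes, with the
smallest possible sum: `x ↦ minFac x` is injective with values in the primes number `≥ i`; the `k`-th
smallest value is at least `pr (i + k)`; equality of the sums forces everything. -/
def S_pa : Prop := S_pb →
  ∀ (i t : ℕ) (X : Finset ℕ), PCs X → X.card = t → ∑ x ∈ X, x = psum i t →
    (∀ x ∈ X, ∀ k < i, Nat.Coprime x (pr k)) → X = pset i t

/-- [zz] The matching of smallest sum.  `C = pset i M ⊆ [x, 2x)`, `D = pset j M ⊆ [y, 2y)`,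
`4 M ≤ x`, `4 M x ≤ y`; every `c ∈ C` divides exactly one `z = f c ∈ Z`, every `d ∈ D` exactly one
`z = g d`.  The sum of `Z` is `< M * 2x * 2y = 4 M x y`.  `g` is injective (`z ≥ d d' ≥ y^2 ≥ 4 M x y`
otherwise), so bijective; `f` is injective (`z ≥ c c' d ≥ x^2 y ≥ 4 M x y` otherwise), so bijective.  So
`z = c d * (cofactor)` and `∑ z ≥ ∑_k pr (i + σ k) pr (j + k)` for a permutation `σ` of `{0..M-1}`, and
by the rearrangement inequality (`Antivary.sum_mul_eq_sum_mul_comp_perm_iff` or similar) this is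
at least `zsum i j M`, with equality only for `σ k = M - 1 - k`; so all cofactors are one. -/
def S_zz : Prop := S_pb →
  ∀ (M i j x y : ℕ) (Z : Finset ℕ), 0 < M → 4 * M ≤ x → 4 * M * x ≤ y →
    (∀ k < M, x ≤ pr (i + k) ∧ pr (i + k) < 2 * x) →
    (∀ k < M, y ≤ pr (j + k) ∧ pr (j + k) < 2 * y) →
    PCs Z → Z.card = M → ∑ z ∈ Z, z = zsum i j M → Dvs (pset i M) Z → Dvs (pset j M) Z →
    Z = zset i j M

/-- [st1] The sets of a solution which do not depend on the word.  `Pt` by `S_pa` (`i = 0`), `Pt'` too,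
`Pc`, `P o`, `PI j` too; `C` by `S_pa` with `i = iC` (coprime to `Pc`), `D o`, `I j` too (note
`iC + M - y j + (y j - x j) ≤ iC + M`); `Z o`, `Z' o`: `Z o` by `S_zz` with `x = pr iC`, `y = pr iD`;
`Z' o` and `Z o` divide into each other, both pairwise coprime, so equal. -/
def S_st1 : Prop := S_pb → S_pa → S_zz →
  ∀ (P : WP) (p : Par P.r P.b), p.Good → ∀ X : P.S → Finset ℕ, SolS P p X →
    X .Pt = pset 0 p.it ∧ X .Pt' = pset 0 p.it ∧ X .Pc = pset 0 p.iC ∧ X .C = pset p.iC p.M ∧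
    (∀ o, X (.P o) = pset 0 (p.iD + p.sh o) ∧ X (.D o) = pset (p.iD + p.sh o) p.M ∧
      X (.Z o) = zset p.iC (p.iD + p.sh o) p.M ∧ X (.Z' o) = zset p.iC (p.iD + p.sh o) p.M) ∧
    ∀ j, X (.PI j) = pset 0 (p.iC + p.M - p.y j) ∧
      X (.I j) = pset (p.iC + p.M - p.y j) (p.y j - p.x j)

/-- [st2] The sets of the letters.  `Ca a ⊆ C` (an integer `≥ 2` dividing a prime is the prime),
pairwise disjoint (`cpS`), `∑ card = M`, so `C` is the disjoint union: this defines
`f k = a ↔ pr (iC + (M - 1 - k)) ∈ X (Ca a)`.  Every `c = pr (iC + (M - 1 - k)) ∈ Ca a` divides an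
element of `Za o a`, which divides an element of `Z o`, necessarily `c * pr (iD + sh o + k)`;
different `c` give different elements (each element of `Z o` is divisible by one element of `C`
only), the cardinalities are equal: so `Za o a = {z_k}` with `c ∣ z_k ∣ c * pr (iD + sh o + k)`,
`z_k ≤ c * pr (iD + sh o + k)`; the total sum `zsum` forces equality.  `Da a ⊆ D none`, each element
divides an element of `Za none a`, so it is `pr (iD + k)` with `f k = a`; cardinalities.
`Ok`: for `l = k + e i` with `Rel i (f k) (f l) = false` the sets `Za (some i) (f k)` and `Da (f l)`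
would have to be coprime, but `pr (iD + e i + k)` divides an element of each.  For `x j ≤ k < y j` and
`Un j (f k) = false` the sets `I j` and `Ca (f k)` would have to be coprime, but both contain
`pr (iC + (M - 1 - k))`. -/
def S_st2 : Prop := S_pb →
  ∀ (P : WP) (p : Par P.r P.b), p.Good → ∀ X : P.S → Finset ℕ, SolS P p X →
    X .C = pset p.iC p.M →
    (∀ o, X (.D o) = pset (p.iD + p.sh o) p.M ∧ X (.Z o) = zset p.iC (p.iD + p.sh o) p.M) →
    (∀ j, X (.I j) = pset (p.iC + p.M - p.y j) (p.y j - p.x j)) →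
    ∃ f : Fin p.M → P.A, P.Ok p.M p.e p.x p.y f ∧
      ∀ a, X (.Ca a) = XX P p f (.Ca a) ∧ X (.Da a) = XX P p f (.Da a) ∧
        ∀ o, X (.Za o a) = XX P p f (.Za o a)

/-- [st] Every solution comes from a word. -/
def S_st : Prop := S_pb → S_pa → S_zz → S_st1 → S_st2 →
  ∀ (P : WP) (p : Par P.r P.b), p.Good → ∀ X : P.S → Finset ℕ, SolS P p X →
    ∃ f : Fin p.M → P.A, P.Ok p.M p.e p.x p.y f ∧ X = XX P p f

/-- [xc] The sets of the letters: pairwise coprime, cardinalities, disjointness; for every `o` the sum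
over `a` of the sums of `Za o a` is `zsum`, and the products. -/
def S_xc : Prop := S_pb →
  ∀ (P : WP) (p : Par P.r P.b), p.Good → ∀ f : Fin p.M → P.A,
    (∀ t, PCs (XX P p f t)) ∧
    (∀ a, (XX P p f (.Ca a)).card = (univ.filter (fun k => f k = a)).card) ∧
    (∀ a, (XX P p f (.Da a)).card = (univ.filter (fun k => f k = a)).card) ∧
    (∀ o a, (XX P p f (.Za o a)).card = (univ.filter (fun k => f k = a)).card) ∧
    ∑ a, (univ.filter (fun k => f k = a)).card = p.M ∧
    ∑ a, ∑ x ∈ XX P p f (.Ca a), x = psum p.iC p.M ∧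
    ∑ a, ∑ x ∈ XX P p f (.Da a), x = psum p.iD p.M ∧
    (∀ o, ∑ a, ∑ x ∈ XX P p f (.Za o a), x = zsum p.iC (p.iD + p.sh o) p.M) ∧
    ∏ a, ∏ x ∈ XX P p f (.Ca a), x = pprod p.iC p.M ∧
    ∏ a, ∏ x ∈ XX P p f (.Da a), x = pprod p.iD p.M ∧
    (∀ o, ∏ a, ∏ x ∈ XX P p f (.Za o a), x = pprod p.iC p.M * pprod (p.iD + p.sh o) p.M)

/-- [bk] Every admissible word gives a solution. -/
def S_bk : Prop := S_pb → S_xc →
  ∀ (P : WP) (p : Par P.r P.b), p.Good → ∀ f : Fin p.M → P.A, P.Ok p.M p.e p.x p.y f →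
    SolS P p (XX P p f)

/-- [tot] The totals: the sum of all elements is `SS`, the product is `ZZ`; the cardinalities are at
most the sums; and `XX` is injective. -/
def S_tot : Prop := S_pb → S_xc →
  ∀ (P : WP) (p : Par P.r P.b), p.Good → ∀ f : Fin p.M → P.A,
    ∑ t, ∑ x ∈ XX P p f t, x = P.SS p ∧ ∏ t, ∏ x ∈ XX P p f t, x = P.ZZ p ∧
    ∑ t, (XX P p f t).card ≤ P.SS p ∧ ∀ f' : Fin p.M → P.A, XX P p f = XX P p f' → f = f'

/-- [wx] The weight of a tuple with product `Z`: each `∏ X i` divides `(∑ X i)!` (`S_zee`), so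
`B!`. -/
def S_wx : Prop := S_zee →
  ∀ (m B : ℕ) (X : Fin m → Finset ℕ), (∀ i, PCs (X i)) → (∀ i, ∑ x ∈ X i, x ≤ B) →
    wtX B X * ∏ i, ∏ x ∈ X i, x = B ! ^ m

/-- [wd] The solutions of the relational system and the words. -/
def S_wd : Prop := S_st → S_bk → S_tot → S_wx → S_pb → S_pa → S_zz → S_st1 → S_st2 → S_xc → S_zee →
  ∀ (P : WP) (p : Par P.r P.b), p.Good → ∀ S B : ℕ, P.SS p ≤ S → S ≤ B →
    (∑ X ∈ Sol P.R (P.num p) S B, wtX B X) * P.ZZ p = P.count p.M p.e p.x p.y * B ! ^ P.m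

/-! ### Existence of the windows, polynomial time -/

/-- [ch] A polynomial bound for the primes.  From `4^n ≤ 2 n * centralBinom n` and
`centralBinom n ∣`-type bound `centralBinom n ≤ (2 n)^(π (2 n))` (`Nat.factorization_choose_le_log`,
`Nat.prod_pow_factorization_centralBinom`), so `π (2 n) + 1 ≥ 2 n / log2 (2 n)`; or Mathlib's
`Mathlib/NumberTheory/Chebyshev.lean`. -/
def S_ch : Prop := ∃ c : Polynomial ℕ, ∀ n : ℕ, pr n ≤ c.eval n

/-- [wi] Windows: if `pr (i + K) ≥ 2 pr i` for all `i = i0 + j K'`, `j < J` (`K' = max K 1`,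
`pr i0 ≥ L`, for instance `i0 = L`), then `pr (i0 + J K') ≥ 2^J`, against the polynomial bound for
`J` of the order of `C log (i0 + K)`. -/
def S_wi : Prop := S_ch → S_pb →
  (∀ L K : ℕ, L ≤ pr (win L K) ∧ pr (win L K + K) < 2 * pr (win L K)) ∧
  ∃ β : Polynomial ℕ, ∀ L K : ℕ, win L K ≤ β.eval (L + K)

/-- [gd] The chosen parameters are good. -/
def S_gd : Prop := S_ch → S_pb → S_wi →
  ∀ (r b M : ℕ) (e : Fin r → ℕ) (x y : Fin b → ℕ), 0 < M → (∀ j, x j ≤ y j) → (∀ j, y j ≤ M) →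
    (mkPar M e x y).Good

/-- [ppr] Primes and windows in polynomial time (unary): search below the polynomial bounds
(`ptime_prime`; `pr i = p` iff `p` is prime and there are exactly `i` primes below `p`). -/
def S_ppr : Prop := S_ch → S_pb → S_wi →
  ∀ (α : Type) (_ : SCode α),
    (∀ f : α → ℕ, PTime f → PTime (fun a => pr (f a))) ∧
    (∀ f g : α → ℕ, PTime f → PTime g → PTime (fun a => win (f a) (g a)))

/-- [pfi] Finite sums, products and conjunctions indexed by a finite type. -/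
def S_pfi : Prop := S_pfs → Arith →
  ∀ (ι : Type) (_ : Fintype ι) (α : Type) (_ : SCode α),
    (∀ f : α → ι → ℕ, (∀ i, PB (fun a => f a i)) →
      PB (fun a => ∑ i, f a i) ∧ PB (fun a => ∏ i, f a i)) ∧
    (∀ f : α → ι → ℕ, (∀ i, PTime (fun a => f a i)) → PTime (fun a => ∑ i, f a i)) ∧
    (∀ p : α → ι → Prop, ∀ _ : ∀ a i, Decidable (p a i), (∀ i, PTime (fun a => decide (p a i))) →
      PTime (fun a => decide (∀ i, p a i)))

/-- [pss] `SS` and `ZZ` of the chosen parameters in polynomial time. -/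
def S_pss : Prop := Arith → S_pfi → S_ppr → S_pfs → S_ch → S_pb → S_wi →
  ∀ (P : WP) (α : Type) (_ : SCode α) (M : α → ℕ) (e : α → Fin P.r → ℕ) (x y : α → Fin P.b → ℕ),
    PTime M → (∀ i, PTime (fun a => e a i)) → (∀ j, PTime (fun a => x a j)) →
    (∀ j, PTime (fun a => y a j)) →
    PTime (fun a => P.SS (mkPar (M a) (e a) (x a) (y a))) ∧
    PB (fun a => P.ZZ (mkPar (M a) (e a) (x a) (y a)))

/-- [pnm] The numerical conditions in polynomial time. -/
def S_pnm : Prop := Arith → S_pfi → S_ppr → S_pfs → S_ch → S_pb → S_wi →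
  ∀ (P : WP) (α : Type) (_ : SCode α) (M : α → ℕ) (e : α → Fin P.r → ℕ) (x y : α → Fin P.b → ℕ),
    PTime M → (∀ i, PTime (fun a => e a i)) → (∀ j, PTime (fun a => x a j)) →
    (∀ j, PTime (fun a => y a j)) →
    PTime (fun q : α × List ℕ × List ℕ => P.num (mkPar (M q.1) (e q.1) (x q.1) (y q.1))
      (fun i => q.2.1.getD i 0) (fun i => q.2.2.getD i 0))

end Pool.Agent.Lib.MP_4b91fc_lc.GH
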