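import Pool.Agent.Lib.MP_4b91fc_lc.GH.Machine
import Pool.Agent.Lib.MP_4b91fc_lc.GH.Stm3

set_option autoImplicit false

/-!
# Exact counting of unlabelled graphs is hard for `#P_1`: definitions, part IV

Tableaux of nondeterministic Turing machines as words with constraints, and the final algorithm.
-/

namespace Pool.Agent.Lib.MP_4b91fc_lc.GH

open Finset

open scoped Nat

/-! ## Cells -/

/-- A cell of the tableau: the border; a tape cell with its symbol and `s` (`true` iff the head is to the
left of the cell); a cell with the head: state, symbol, and the transition chosen (`none` if the machine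
has halted). -/
inductive Cell (Q Γ : Type)
  | bd
  | tp (γ : Γ) (s : Bool)
  | hd (q : Q) (γ : Γ) (c : Option (Q × Γ × Dir))
  deriving DecidableEq, Fintype

variable {Q Γ : Type} [DecidableEq Q] [DecidableEq Γ]

/-- neighbours in a row -/
def relH : Cell Q Γ → Cell Q Γ → Bool
  | .bd, .tp _ s => !s
  | .bd, .hd _ _ _ => true
  | .tp _ s, .tp _ s' => s == s'
  | .tp _ s, .hd _ _ _ => !s
  | .tp _ s, .bd => s
  | .hd _ _ _, .tp _ s => s
  | .hd _ _ _, .bd => true
  | _, _ => false

/-- the cell below in the next row -/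
def relV : Cell Q Γ → Cell Q Γ → Bool
  | .bd, .bd => true
  | .tp γ _, .tp γ' _ => decide (γ' = γ)
  | .tp γ _, .hd _ γ' _ => decide (γ' = γ)
  | .hd q γ none, .hd q' γ' c' => decide (q' = q ∧ γ' = γ ∧ c' = none)
  | .hd _ _ (some τ), .tp γ' _ => decide (τ.2.2 ≠ .stay ∧ γ' = τ.2.1)
  | .hd _ _ (some τ), .hd q' γ' _ => decide (τ.2.2 = .stay ∧ q' = τ.1 ∧ γ' = τ.2.1)
  | _, _ => false

/-- the cell has the head in the state `q` -/
def hasHd (q : Q) : Cell Q Γ → Bool
  | .hd q' _ _ => decide (q' = q)
  | _ => false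

/-- a cell and the cell below to the left -/
def relL : Cell Q Γ → Cell Q Γ → Bool
  | .hd _ _ (some τ), b => decide (τ.2.2 = .left → hasHd τ.1 b = true)
  | _, _ => true

/-- a cell and the cell below to the right -/
def relR : Cell Q Γ → Cell Q Γ → Bool
  | .hd _ _ (some τ), b => decide (τ.2.2 = .right → hasHd τ.1 b = true)
  | _, _ => true

/-- the symbol of the cell is `γ` -/
def hasSym (γ : Γ) : Cell Q Γ → Bool
  | .bd => false
  | .tp γ' _ => decide (γ' = γ)
  | .hd _ γ' _ => decide (γ' = γ)

/-- the word problem of a machine -/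
def WPn (N : NTM) : WP where
  A := Cell N.Q N.Γ
  r := 4
  Rel := ![relH, relV, relL, relR]
  b := 6
  Un := ![fun a => match a with
      | .hd q γ none => decide (N.δ q γ = ∅ ∧ q ∈ N.acc)
      | .hd q γ (some τ) => decide (τ ∈ N.δ q γ)
      | _ => true,
    fun a => decide (a = .bd),
    fun a => decide (a = .tp N.blank false),
    fun a => hasHd N.start a,
    fun a => hasSym N.one a,
    fun a => hasSym N.blank a]

/-- the width of a row of the tableau with `T + 1` rows -/
def Wd (n T : ℕ) : ℕ := 2 * T + n + 5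

/-- the length of the words -/
def Mw (n T : ℕ) : ℕ := Wd n T * (T + 1)

/-- the shifts -/
def ew (n T : ℕ) : Fin 4 → ℕ := ![1, Wd n T, Wd n T - 1, Wd n T + 1]

/-- the left ends of the intervals -/
def xw (n T : ℕ) : Fin 6 → ℕ := ![0, 0, 1, T + 2, T + 2, T + 2 + n]

/-- the right ends of the intervals -/
def yw (n T : ℕ) : Fin 6 → ℕ := ![Mw n T, 1, T + 2, T + 3, T + 2 + n, Wd n T]

/-! ## The tableau of a computation -/

/-- the configuration after the first `t` transitions of `l` -/
def cfgAt {N : NTM} (c : N.Cfg) (l : List N.Tr) (t : ℕ) : N.Cfg := (l.take t).foldl NTM.Cfg.next c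

/-- the cell at the position `x` of the tape -/
def cellAt {N : NTM} (c : N.Cfg) (ch : Option N.Tr) (x : ℤ) : Cell N.Q N.Γ :=
  if x = c.pos then .hd c.q (c.tape x) ch else .tp (c.tape x) (decide (c.pos < x))

/-- the word of a computation: position `k` is the row `k / Wd n T` and the column `k % Wd n T`; column
`0` is the border, column `j > 0` is the tape position `j - (T + 2)` -/
def tabl (N : NTM) (n T : ℕ) (l : List N.Tr) (k : Fin (Mw n T)) : Cell N.Q N.Γ :=
  if (k : ℕ) % Wd n T = 0 then .bd
  else cellAt (cfgAt (N.init n) l ((k : ℕ) / Wd n T)) (l[(k : ℕ) / Wd n T]?)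
    (((k : ℕ) % Wd n T : ℕ) - ((T : ℤ) + 2))

/-- row `t` of the word `f` is the configuration `c` with the chosen transition `ch` -/
def RowIs {N : NTM} (n T : ℕ) (f : Fin (Mw n T) → Cell N.Q N.Γ) (t : ℕ) (c : N.Cfg)
    (ch : Option N.Tr) : Prop :=
  ∀ k : Fin (Mw n T), (k : ℕ) / Wd n T = t →
    f k = if (k : ℕ) % Wd n T = 0 then .bd else cellAt c ch (((k : ℕ) % Wd n T : ℕ) - ((T : ℤ) + 2))

/-! ## The final algorithm -/

/-- the parameters of the word problem for the input `1 ^ n` and the polynomial `p` -/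
noncomputable def parN (N : NTM) (p : Polynomial ℕ) (n : ℕ) : Par (WPn N).r (WPn N).b :=
  mkPar (Mw n (p.eval n + 1)) (ew n (p.eval n + 1)) (xw n (p.eval n + 1)) (yw n (p.eval n + 1))

/-- the algorithm computing the number of accepting computations from `U` -/
noncomputable def GG (N : NTM) (p : Polynomial ℕ) (U : ℕ → ℕ) (n : ℕ) : ℕ :=
  algR (ev U) (WPn N).R ((WPn N).num (parN N p n)) ((WPn N).SS (parN N p n))
      (bB (WPn N).m ((WPn N).SS (parN N p n))) (bH (WPn N).m ((WPn N).SS (parN N p n)))
      (tya (WPn N).m ((WPn N).SS (parN N p n))) (tyPi (WPn N).m ((WPn N).SS (parN N p n))) *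
    (WPn N).ZZ (parN N p n) / (bB (WPn N).m ((WPn N).SS (parN N p n)))! ^ (WPn N).m

/-- the coding of a number `n` and a list of numbers as a word -/
def query (n : ℕ) (u : List ℕ) : List Bool :=
  List.replicate n true ++ false ::
    u.flatMap (fun v => (Nat.bits v).flatMap (fun b => [true, b]) ++ [false])

/-- the first `c` values of `U` as a list of numbers in binary, used as an oracle -/
def orac (l : List Big) (i : ℕ) : ℕ := (l.getD i ⟨0⟩).val

end Pool.Agent.Lib.MP_4b91fc_lc.GH
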