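import Pool.Agent.Lib.MP_4b91fc_lc.GH.Machine

set_option autoImplicit false

/-!
# `#GRAPHS` is complete for `#P_1`: definitions, part V (membership)

A nondeterministic Turing machine with `n! * U_n` accepting computations on the input `1 ^ n`.  The
machine sweeps over the input from left to right, rewriting letters, and returns to the left end.
-/

namespace Pool.Agent.Lib.MP_4b91fc_lc.GH

open Finset

open scoped Nat

/-! ## Counting computations -/

/-- the number of accepting computations from the configuration `c` -/
noncomputable def NTM.cnt {N : NTM} (c : N.Cfg) : ℕ :=
  Nat.card {l : List N.Tr // ∃ c' : N.Cfg, NTM.Path c l c' ∧ c'.Halted ∧ c'.q ∈ N.acc}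

/-- every computation from `c` has at most `b` steps -/
def NTM.Bd {N : NTM} (c : N.Cfg) (b : ℕ) : Prop :=
  ∀ (l : List N.Tr) (c' : N.Cfg), NTM.Path c l c' → l.length ≤ b

/-! ## Sweeping machines -/

/-- A sweeping system: letters, states, nondeterministic transitions `tr` which rewrite one letter;
`fin s` is the decision at the right end: `some true` accept, `some false` next sweep, `none` stop. -/
structure Sw where
  A : Type
  [finA : Fintype A]
  [decA : DecidableEq A]
  S : Type
  [finS : Fintype S]
  [decS : DecidableEq S]
  one : A
  s0 : S
  tr : S → A → Finset (S × A)
  fin : S → Option Bool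

attribute [instance] Sw.finA Sw.decA Sw.finS Sw.decS

/-- states of the machine: sweeping, returning, accepting -/
inductive MQ (S : Type)
  | sw (s : S)
  | rt
  | ac
  deriving DecidableEq, Fintype

/-- the transitions of the machine of a sweeping system -/
def Sw.del (W : Sw) : MQ W.S → Option W.A → Finset (MQ W.S × Option W.A × Dir)
  | .sw s, some a => (W.tr s a).image (fun x => (MQ.sw x.1, some x.2, Dir.right))
  | .sw s, none => match W.fin s with
    | some true => {(.ac, none, .stay)}
    | some false => {(.rt, none, .left)}
    | none => ∅
  | .rt, some a => {(.rt, some a, .left)}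
  | .rt, none => {(.sw W.s0, none, .right)}
  | .ac, _ => ∅

/-- the machine of a sweeping system -/
def Sw.ntm (W : Sw) : NTM where
  Q := MQ W.S
  Γ := Option W.A
  blank := none
  one := some W.one
  blank_ne_one := by simp
  start := .sw W.s0
  acc := {.ac}
  δ := W.del

/-- the tape with the word `L` on the cells `0, 1, ...` -/
def Sw.tp (W : Sw) (L : List W.A) (x : ℤ) : Option W.A := if 0 ≤ x then L[x.toNat]? else none

/-- the sum of `f` over the results of the sweeps over the rest `L`, in the state `s`, with `P`
already written -/
def Sw.swp (W : Sw) (f : W.S → List W.A → ℕ) : W.S → List W.A → List W.A → ℕ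
  | s, P, [] => f s P
  | s, P, a :: L => ∑ x ∈ W.tr s a, W.swp f x.1 (P ++ [x.2]) L

/-- the value at the right end: `v` is the number of accepting computations from the next sweep on -/
def Sw.endv (W : Sw) (v : List W.A → ℕ) (s : W.S) (L : List W.A) : ℕ :=
  match W.fin s with
  | some true => 1
  | some false => v L
  | none => 0

/-- the number of accepting computations with at most `t` sweeps -/
def Sw.val (W : Sw) : ℕ → List W.A → ℕ
  | 0, _ => 0
  | t + 1, L => W.swp (W.endv (W.val t)) W.s0 [] L

/-! ## The system counting the pairs of a graph and an automorphism

The cells are `0, ..., n - 1`; the first sweep chooses the lengths of the cycles (consecutive blocks)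
and, for a block of length `a`, `a / 2` bits.  Sweep `i` marks cell `i` as done and
* if `i` is not the first cell of its block, chooses one of the `n - i` cells from `i` on;
* if `i` is the first cell of its block, chooses new bits `x` on the later blocks;
* rotates in each later block the bits `y` (started with `x`);
* if `i` is the last cell of its block, checks that `y = x` on the later blocks. -/

/-- letters: input, done, `lt b x y` (`b`: first cell of a block) -/
inductive LA
  | one
  | dn
  | lt (b x y : Bool)
  deriving DecidableEq, Fintype

/-- states: `s0` start; `gs p` first sweep, `p` the parity of the offset of the next cell in its block;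
`fst`, `own` in the current block (`nw`: it was its first cell, `ch`: a cell has been chosen); `rot` in a
later block (`la`: last cell of the current block; `c` the previous bit `y`, `g` the guess for the last
bit `y` of this block) -/
inductive LS
  | s0
  | gs (p : Bool)
  | fst (nw ch : Bool)
  | own (nw ch : Bool)
  | rot (nw la ch c g : Bool)
  deriving DecidableEq, Fintype

/-- the values of the flag `ch` after a cell -/
def chs (ch : Bool) : Finset Bool := if ch then {true} else {true, false}

/-- the new bit `x` -/
def xns (nw x : Bool) : Finset Bool := if nw then {true, false} else {x}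

/-- the first cell of a later block: guess `g`, write it as the new `y` -/
def rotS (nw la ch x y : Bool) : Finset (LS × LA) :=
  ((xns nw x ×ˢ (univ : Finset Bool) ×ˢ chs ch).filter (fun z => la = true → z.2.1 = z.1)).image
    (fun z => (LS.rot nw la z.2.2 (if nw then z.1 else y) z.2.1, LA.lt true z.1 z.2.1))

/-- the next cells of a later block: the new `y` is the previous one -/
def rotC (nw la ch c g x y : Bool) : Finset (LS × LA) :=
  ((xns nw x ×ˢ chs ch).filter (fun z => la = true → c = z.1)).image
    (fun z => (LS.rot nw la z.2 (if nw then z.1 else y) g, LA.lt false z.1 c))

/-- the transitions -/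
def trG : LS → LA → Finset (LS × LA)
  | .s0, .dn => {(.s0, .dn)}
  | .s0, .one => {(.gs true, .lt true false false)}
  | .s0, .lt b _ _ => (chs b).image (fun ch => (.fst b ch, .dn))
  | .gs p, .one => insert (.gs true, .lt true false false)
      (if p then {(.gs false, .lt false false false), (.gs false, .lt false true false)}
        else {(.gs true, .lt false false false)})
  | .fst nw ch, .lt false x y => (chs ch).image (fun ch' => (.own nw ch', .lt false x y))
  | .fst nw ch, .lt true x y => rotS nw true ch x y
  | .own nw ch, .lt false x y => (chs ch).image (fun ch' => (.own nw ch', .lt false x y))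
  | .own nw ch, .lt true x y => rotS nw false ch x y
  | .rot nw la ch c g, .lt true x y => if c = g then rotS nw la ch x y else ∅
  | .rot nw la ch c g, .lt false x y => rotC nw la ch c g x y
  | _, _ => ∅

/-- the decisions at the right end -/
def finG : LS → Option Bool
  | .s0 => some true
  | .gs _ => some false
  | .fst _ ch => if ch then some false else none
  | .own _ ch => if ch then some false else none
  | .rot _ _ ch c g => if ch = true ∧ c = g then some false else none

/-- the system -/
abbrev GW : Sw where
  A := LA
  S := LS
  one := .one
  s0 := .s0
  tr := trG
  fin := finG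

/-- a cell inside a block -/
def ltf (p : Bool × Bool) : LA := .lt false p.1 p.2

/-- a block of cells with bits `x`, `y` -/
def bk : List (Bool × Bool) → List LA
  | [] => []
  | p :: B => .lt true p.1 p.2 :: B.map ltf

/-- a list of blocks -/
def tpe (D : List (List (Bool × Bool))) : List LA := D.flatMap bk

/-- rotation by one to the right -/
def rot1 {α : Type} (Y : List α) : List α := Y.rotate (Y.length - 1)

/-- the rotation of the bits `y` of a block -/
def stp (B : List (Bool × Bool)) : List (Bool × Bool) :=
  (B.map Prod.fst).zip (rot1 (B.map Prod.snd))

/-- the sum of `h` over all lists of words with the given lengths -/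
def sumX : List ℕ → (List (List Bool) → ℕ) → ℕ
  | [], h => h []
  | b :: bs, h => ∑ w : Fin b → Bool, sumX bs (fun Z => h (List.ofFn w :: Z))

/-- the number of accepting computations for given lengths of the blocks -/
def gv : List ℕ → ℕ
  | [] => 1
  | a :: μ => (∏ t ∈ range (a - 1), (μ.sum + t + 1)) * 2 ^ (μ.map (fun b => Nat.gcd a b)).sum * gv μ

end Pool.Agent.Lib.MP_4b91fc_lc.GH
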