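import Mathlib

set_option autoImplicit false

/-!
# Nondeterministic Turing machines and the class `#P_1`
-/

namespace Pool.Agent.Lib.MP_4b91fc_lc.GH

/-- moves of the head -/
inductive Dir
  | left
  | stay
  | right
  deriving DecidableEq, Fintype

/-- the displacement of a move -/
def Dir.val : Dir → ℤ
  | .left => -1
  | .stay => 0
  | .right => 1

/-- Nondeterministic Turing machines with one tape, infinite in both directions.  `δ q γ` is the set of
the possible transitions in state `q` when the symbol `γ` is scanned: new state, symbol to be written,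
move of the head. -/
structure NTM where
  /-- states -/
  Q : Type
  /-- tape symbols -/
  Γ : Type
  [finQ : Fintype Q]
  [decQ : DecidableEq Q]
  [finΓ : Fintype Γ]
  [decΓ : DecidableEq Γ]
  /-- the blank symbol -/
  blank : Γ
  /-- the input symbol -/
  one : Γ
  blank_ne_one : blank ≠ one
  /-- the initial state -/
  start : Q
  /-- the accepting states -/
  acc : Finset Q
  /-- the transitions -/
  δ : Q → Γ → Finset (Q × Γ × Dir)

attribute [instance] NTM.finQ NTM.decQ NTM.finΓ NTM.decΓ

namespace NTM

variable (N : NTM)

/-- configurations: state, position of the head, contents of the tape -/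
structure Cfg where
  /-- the state -/
  q : N.Q
  /-- the position of the head -/
  pos : ℤ
  /-- the contents of the tape -/
  tape : ℤ → N.Γ

/-- transitions -/
abbrev Tr : Type := N.Q × N.Γ × Dir

variable {N}

/-- the symbol under the head -/
def Cfg.scan (c : N.Cfg) : N.Γ := c.tape c.pos

/-- the configuration after a transition -/
def Cfg.next (c : N.Cfg) (τ : N.Tr) : N.Cfg :=
  ⟨τ.1, c.pos + τ.2.2.val, Function.update c.tape c.pos τ.2.1⟩

/-- `Path c l c'`: the list `l` of transitions leads from `c` to `c'`, each transition being
allowed -/
inductive Path : N.Cfg → List N.Tr → N.Cfg → Prop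
  | nil (c : N.Cfg) : Path c [] c
  | cons (c c' : N.Cfg) (τ : N.Tr) (l : List N.Tr) :
      τ ∈ N.δ c.q c.scan → Path (c.next τ) l c' → Path c (τ :: l) c'

/-- no transition is possible -/
def Cfg.Halted (c : N.Cfg) : Prop := N.δ c.q c.scan = ∅

variable (N)

/-- the initial configuration for the input `1 ^ n`, written on the cells `0, ..., n - 1` -/
def init (n : ℕ) : N.Cfg := ⟨N.start, 0, fun i => if 0 ≤ i ∧ i < n then N.one else N.blank⟩

/-- `l` is an accepting computation on the input `1 ^ n`: it ends in a configuration where no
transition is possible, in an accepting state -/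
def Accepts (n : ℕ) (l : List N.Tr) : Prop :=
  ∃ c : N.Cfg, Path (N.init n) l c ∧ c.Halted ∧ c.q ∈ N.acc

/-- the number of accepting computations on the input `1 ^ n` -/
noncomputable def numAcc (n : ℕ) : ℕ := Nat.card {l : List N.Tr // N.Accepts n l}

/-- on the input `1 ^ n` there is no computation with more than `p n` steps -/
def RunsIn (p : Polynomial ℕ) : Prop :=
  ∀ (n : ℕ) (l : List N.Tr) (c : N.Cfg), Path (N.init n) l c → l.length ≤ p.eval n

end NTM

/-- the class `#P_1`: `f n` is the number of accepting computations on the input `1 ^ n` of a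
nondeterministic polynomial-time Turing machine -/
def IsSharpP1 (f : ℕ → ℕ) : Prop :=
  ∃ (N : NTM) (p : Polynomial ℕ), N.RunsIn p ∧ ∀ n : ℕ, f n = N.numAcc n

end Pool.Agent.Lib.MP_4b91fc_lc.GH
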