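import Pool.Agent.Lib.MP_4b91fc_lc.GH.Asm
import Pool.Agent.Lib.MP_4b91fc_lc.GH.P.aev
import Pool.Agent.Lib.MP_4b91fc_lc.GH.P.bdiv
import Pool.Agent.Lib.MP_4b91fc_lc.GH.P.bk
import Pool.Agent.Lib.MP_4b91fc_lc.GH.P.ble
import Pool.Agent.Lib.MP_4b91fc_lc.GH.P.blp
import Pool.Agent.Lib.MP_4b91fc_lc.GH.P.bmod
import Pool.Agent.Lib.MP_4b91fc_lc.GH.P.bmul
import Pool.Agent.Lib.MP_4b91fc_lc.GH.P.bpr
import Pool.Agent.Lib.MP_4b91fc_lc.GH.P.bsub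
import Pool.Agent.Lib.MP_4b91fc_lc.GH.P.bun
import Pool.Agent.Lib.MP_4b91fc_lc.GH.P.burn
import Pool.Agent.Lib.MP_4b91fc_lc.GH.P.cc
import Pool.Agent.Lib.MP_4b91fc_lc.GH.P.ch
import Pool.Agent.Lib.MP_4b91fc_lc.GH.P.cl
import Pool.Agent.Lib.MP_4b91fc_lc.GH.P.clu
import Pool.Agent.Lib.MP_4b91fc_lc.GH.P.dc
import Pool.Agent.Lib.MP_4b91fc_lc.GH.P.def
import Pool.Agent.Lib.MP_4b91fc_lc.GH.P.dg
import Pool.Agent.Lib.MP_4b91fc_lc.GH.P.ev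
import Pool.Agent.Lib.MP_4b91fc_lc.GH.P.f1
import Pool.Agent.Lib.MP_4b91fc_lc.GH.P.f2
import Pool.Agent.Lib.MP_4b91fc_lc.GH.P.f3
import Pool.Agent.Lib.MP_4b91fc_lc.GH.P.fn
import Pool.Agent.Lib.MP_4b91fc_lc.GH.P.gd
import Pool.Agent.Lib.MP_4b91fc_lc.GH.P.hi
import Pool.Agent.Lib.MP_4b91fc_lc.GH.P.intp
import Pool.Agent.Lib.MP_4b91fc_lc.GH.P.jn
import Pool.Agent.Lib.MP_4b91fc_lc.GH.P.l1
import Pool.Agent.Lib.MP_4b91fc_lc.GH.P.l1d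
import Pool.Agent.Lib.MP_4b91fc_lc.GH.P.l1t
import Pool.Agent.Lib.MP_4b91fc_lc.GH.P.l2
import Pool.Agent.Lib.MP_4b91fc_lc.GH.P.l2d
import Pool.Agent.Lib.MP_4b91fc_lc.GH.P.lal
import Pool.Agent.Lib.MP_4b91fc_lc.GH.P.loc
import Pool.Agent.Lib.MP_4b91fc_lc.GH.P.m1
import Pool.Agent.Lib.MP_4b91fc_lc.GH.P.m2
import Pool.Agent.Lib.MP_4b91fc_lc.GH.P.ms
import Pool.Agent.Lib.MP_4b91fc_lc.GH.P.n0
import Pool.Agent.Lib.MP_4b91fc_lc.GH.P.n1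
import Pool.Agent.Lib.MP_4b91fc_lc.GH.P.n2
import Pool.Agent.Lib.MP_4b91fc_lc.GH.P.n3
import Pool.Agent.Lib.MP_4b91fc_lc.GH.P.n3v
import Pool.Agent.Lib.MP_4b91fc_lc.GH.P.n4
import Pool.Agent.Lib.MP_4b91fc_lc.GH.P.n5
import Pool.Agent.Lib.MP_4b91fc_lc.GH.P.np
import Pool.Agent.Lib.MP_4b91fc_lc.GH.P.pa
import Pool.Agent.Lib.MP_4b91fc_lc.GH.P.pal
import Pool.Agent.Lib.MP_4b91fc_lc.GH.P.parts
import Pool.Agent.Lib.MP_4b91fc_lc.GH.P.pb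
import Pool.Agent.Lib.MP_4b91fc_lc.GH.P.pev
import Pool.Agent.Lib.MP_4b91fc_lc.GH.P.pfi
import Pool.Agent.Lib.MP_4b91fc_lc.GH.P.pfs
import Pool.Agent.Lib.MP_4b91fc_lc.GH.P.pin
import Pool.Agent.Lib.MP_4b91fc_lc.GH.P.pl1
import Pool.Agent.Lib.MP_4b91fc_lc.GH.P.pl2
import Pool.Agent.Lib.MP_4b91fc_lc.GH.P.pnm
import Pool.Agent.Lib.MP_4b91fc_lc.GH.P.ppr
import Pool.Agent.Lib.MP_4b91fc_lc.GH.P.prd
import Pool.Agent.Lib.MP_4b91fc_lc.GH.P.pss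
import Pool.Agent.Lib.MP_4b91fc_lc.GH.P.pt2
import Pool.Agent.Lib.MP_4b91fc_lc.GH.P.ptn
import Pool.Agent.Lib.MP_4b91fc_lc.GH.P.ptu
import Pool.Agent.Lib.MP_4b91fc_lc.GH.P.red
import Pool.Agent.Lib.MP_4b91fc_lc.GH.P.rs
import Pool.Agent.Lib.MP_4b91fc_lc.GH.P.st
import Pool.Agent.Lib.MP_4b91fc_lc.GH.P.st1
import Pool.Agent.Lib.MP_4b91fc_lc.GH.P.st2
import Pool.Agent.Lib.MP_4b91fc_lc.GH.P.t1
import Pool.Agent.Lib.MP_4b91fc_lc.GH.P.t2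
import Pool.Agent.Lib.MP_4b91fc_lc.GH.P.tot
import Pool.Agent.Lib.MP_4b91fc_lc.GH.P.tt
import Pool.Agent.Lib.MP_4b91fc_lc.GH.P.tt1
import Pool.Agent.Lib.MP_4b91fc_lc.GH.P.tt2
import Pool.Agent.Lib.MP_4b91fc_lc.GH.P.ty1
import Pool.Agent.Lib.MP_4b91fc_lc.GH.P.ty2
import Pool.Agent.Lib.MP_4b91fc_lc.GH.P.v0
import Pool.Agent.Lib.MP_4b91fc_lc.GH.P.v1
import Pool.Agent.Lib.MP_4b91fc_lc.GH.P.v2m
import Pool.Agent.Lib.MP_4b91fc_lc.GH.P.v2s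
import Pool.Agent.Lib.MP_4b91fc_lc.GH.P.v3
import Pool.Agent.Lib.MP_4b91fc_lc.GH.P.v4
import Pool.Agent.Lib.MP_4b91fc_lc.GH.P.v5
import Pool.Agent.Lib.MP_4b91fc_lc.GH.P.v6
import Pool.Agent.Lib.MP_4b91fc_lc.GH.P.v7
import Pool.Agent.Lib.MP_4b91fc_lc.GH.P.v8
import Pool.Agent.Lib.MP_4b91fc_lc.GH.P.w1
import Pool.Agent.Lib.MP_4b91fc_lc.GH.P.w2
import Pool.Agent.Lib.MP_4b91fc_lc.GH.P.w3
import Pool.Agent.Lib.MP_4b91fc_lc.GH.P.wd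
import Pool.Agent.Lib.MP_4b91fc_lc.GH.P.wi
import Pool.Agent.Lib.MP_4b91fc_lc.GH.P.wx
import Pool.Agent.Lib.MP_4b91fc_lc.GH.P.xc
import Pool.Agent.Lib.MP_4b91fc_lc.GH.P.zee
import Pool.Agent.Lib.MP_4b91fc_lc.GH.P.zz

set_option autoImplicit false

/-!
# Exact counting of unlabelled graphs is complete for `#P_1`
-/

namespace Pool.Agent.Lib.MP_4b91fc_lc.GH

open Finset Pool.Agent.PolyTime Turing

open scoped Nat

/-- everything about binary numbers -/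
theorem arith : Arith := asm_arith p_bmul p_bsub p_ble p_bdiv p_bmod p_bun p_blp p_bpr

/-- the algorithm computes the number of accepting computations -/
theorem GG_numGraphs : ∀ (N : NTM) (p : Polynomial ℕ), N.RunsIn p →
    ∀ n : ℕ, GG N p numGraphs n = N.numAcc n :=
  asm_GG p_zee p_np p_ty1 p_pb p_pa p_zz p_st1 p_st2 p_st p_xc p_bk p_tot p_wx p_wd p_ch p_wi p_gd
    p_n0 p_n1 p_n2 p_n3 p_n3v p_n4 p_n5 p_f1
    (asm_alg p_ptn p_zee p_cc p_fn p_w1 p_w2 p_w3 p_ms p_jn p_tt1 p_tt2 p_tt p_cl p_dg p_rs p_aev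
      (asm_ev p_ptn p_zee p_cc p_burn p_def p_parts p_fn p_intp p_l1t p_l1d p_l1 p_t1 p_t2 p_hi
        p_clu p_l2d p_l2 p_ev))

/-- the truth-table reduction -/
theorem hard : ∀ f : ℕ → ℕ, IsSharpP1 f →
    ∃ (p : Polynomial ℕ) (G : List Bool → List Bool),
      Nonempty (TM2ComputableInPolyTime (fun w : List Bool => w) (fun w : List Bool => w) G) ∧
      ∀ n : ℕ, G (query n ((List.range (p.eval n + 1)).map numGraphs)) = Nat.bits (f n) :=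
  p_red GG_numGraphs
    (asm_GGtime arith p_pin p_pl1 p_pl2 p_pev p_pfs p_ptu p_pt2 p_prd p_pal p_np p_ty2 p_pb p_ch
      p_wi p_ppr p_pfi p_pss p_pnm p_f2)
    (asm_GGloc arith p_loc p_lal p_np p_ty2 p_pfs p_pb p_ch p_wi p_ppr p_pfi p_pss p_f3)
    p_dc p_m1

/-- if `U` is computable in polynomial time, then so is every function in `#P_1` -/
theorem hard_two (hU : Nonempty (TM2ComputableInPolyTime (fun n : ℕ => List.replicate n true)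
    Nat.bits numGraphs)) (f : ℕ → ℕ) (hf : IsSharpP1 f) :
    Nonempty (TM2ComputableInPolyTime (fun n : ℕ => List.replicate n true) Nat.bits f) :=
  asm_two p_m2 hard hU f hf

/-- `n! U_n` is in `#P_1` -/
theorem mem_sharp : IsSharpP1 (fun n => n ! * numGraphs n) :=
  p_v7 p_v0 (p_v1 p_v0) (p_v5 p_v2m p_v2s p_v4 p_v3)
    (p_v6 p_burn p_cc p_zee p_ptn)

/-- `U` is computable in polynomial time if and only if all functions in `#P_1` are -/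
theorem iff_sharp :
    Nonempty (TM2ComputableInPolyTime (fun n : ℕ => List.replicate n true) Nat.bits numGraphs) ↔
      ∀ f : ℕ → ℕ, IsSharpP1 f →
        Nonempty (TM2ComputableInPolyTime (fun n : ℕ => List.replicate n true) Nat.bits f) :=
  ⟨fun hU f hf => hard_two hU f hf, fun h => p_v8 numGraphs (h _ mem_sharp)⟩

end Pool.Agent.Lib.MP_4b91fc_lc.GH
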