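import Pool.Agent.Lib.MP_4b91fc_lc.GH.Defs4

set_option autoImplicit false

/-!
# `#GRAPHS` is hard for `#P_1`: statements, part IV (machines and the end of the proof)
-/

namespace Pool.Agent.Lib.MP_4b91fc_lc.GH

open Finset Pool.Agent.PolyTime Turing

open scoped Nat

/-! ### Computations -/

/-- [n0] Paths as lists; the head moves by at most one cell in each step, and changes only cells it has
visited. -/
def S_n0 : Prop :=
  (∀ (N : NTM) (c c' : N.Cfg) (l : List N.Tr), NTM.Path c l c' ↔
    c' = l.foldl NTM.Cfg.next c ∧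
      ∀ (t : ℕ) (h : t < l.length), l[t] ∈ N.δ (cfgAt c l t).q (cfgAt c l t).scan) ∧
  (∀ (N : NTM) (n : ℕ) (l : List N.Tr) (t : ℕ), |(cfgAt (N.init n) l t).pos| ≤ t) ∧
  (∀ (N : NTM) (n : ℕ) (l : List N.Tr) (t : ℕ) (x : ℤ), (t : ℤ) ≤ |x| →
    (cfgAt (N.init n) l t).tape x = (N.init n).tape x) ∧
  (∀ (N : NTM) (c : N.Cfg) (l : List N.Tr) (t : ℕ) (h : t < l.length),
    cfgAt c l (t + 1) = (cfgAt c l t).next l[t]) ∧
  (∀ (N : NTM) (c : N.Cfg) (l : List N.Tr) (t : ℕ), l.length ≤ t →
    cfgAt c l t = l.foldl NTM.Cfg.next c)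

/-- [n1] The tableau of an accepting computation is an admissible word.  `W = Wd n T = 2 T + n + 5`,
column `j` is the tape position `j - (T + 2)`, so the columns `1 .. W - 1` are `-T-1 .. T+n+2`; the head is
at positions of absolute value at most `T`, columns `2 .. 2T+2 ≤ W - 3`.  `relH` for `k, k + 1` also at the
end of a row (a tape cell to the right of the head, then the border); `relL`, `relR` only have content for
a head cell, `k + W - 1` and `k + W + 1` are then the cells below left and right.  For `t ≥ l.length` the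
rows are all the last configuration with choice `none`. -/
def S_n1 : Prop := S_n0 →
  ∀ (N : NTM) (n T : ℕ) (l : List N.Tr), N.Accepts n l → l.length < T →
    (WPn N).Ok (Mw n T) (ew n T) (xw n T) (yw n T) (tabl N n T l)

/-- [n2] Row `0` of an admissible word is the initial configuration: `Un 1`: border at `0`; `Un 2`:
columns `1 .. T+1` blank, head to the right; `Un 3`: head in the initial state at column `T + 2`; `Un 4`,
`Un 5`: the symbols; after the head, `relH` gives tape cells with `s = true` (a border is excluded by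
`Un 4`, `Un 5`). -/
def S_n2 : Prop :=
  ∀ (N : NTM) (n T : ℕ) (f : Fin (Mw n T) → Cell N.Q N.Γ),
    (WPn N).Ok (Mw n T) (ew n T) (xw n T) (yw n T) f → ∃ ch, RowIs n T f 0 (N.init n) ch

/-- [n3] The next row.  Border: `relV` at column `0`, and no other border in row `t + 1` as `relV`
relates tape and head cells to tape and head cells only.  If `ch = some τ` and the move is left (right),
`relL` (`relR`) puts a head in state `τ.1` below left (right), `relV` there gives the symbol (that of the
cell above), `relV` below the head gives a tape cell with the written symbol; if the move is `stay`,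
`relV` gives the head cell.  If `ch = none`, `relV` copies the head cell.  All other cells of the row: not
a head by `relH` (starting from the border, cells `tp _ false`, one head, cells `tp _ true`), symbols by
`relV`. -/
def S_n3 : Prop :=
  ∀ (N : NTM) (n T t : ℕ) (f : Fin (Mw n T) → Cell N.Q N.Γ) (c : N.Cfg) (ch : Option N.Tr),
    (WPn N).Ok (Mw n T) (ew n T) (xw n T) (yw n T) f → t < T → |c.pos| ≤ t →
    RowIs n T f t c ch →
    ∃ ch' : Option N.Tr, RowIs n T f (t + 1) (ch.elim c (fun τ => c.next τ)) ch' ∧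
      (ch = none → ch' = none)

/-- [n3v] The choices are valid (`Un 0`). -/
def S_n3v : Prop :=
  ∀ (N : NTM) (n T t : ℕ) (f : Fin (Mw n T) → Cell N.Q N.Γ) (c : N.Cfg) (ch : Option N.Tr),
    (WPn N).Ok (Mw n T) (ew n T) (xw n T) (yw n T) f → t ≤ T → |c.pos| ≤ T →
    RowIs n T f t c ch →
    (ch = none → c.Halted ∧ c.q ∈ N.acc) ∧ ∀ τ, ch = some τ → τ ∈ N.δ c.q c.scan

/-- [n4] Every admissible word is the tableau of an accepting computation.  The rows give choices
`ch 0, ..., ch T`; if the first `T` are all `some`, they form a path of length `T`; so let `t0 < T` be the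
first `none`, `l` the list of the choices before; the configuration of row `t0` is halted and
accepting, all later rows are equal to it. -/
def S_n4 : Prop := S_n0 → S_n2 → S_n3 → S_n3v →
  ∀ (N : NTM) (n T : ℕ), (∀ (l : List N.Tr) (c : N.Cfg), NTM.Path (N.init n) l c → l.length < T) →
    ∀ f : Fin (Mw n T) → Cell N.Q N.Γ,
      (WPn N).Ok (Mw n T) (ew n T) (xw n T) (yw n T) f →
      ∃ l : List N.Tr, N.Accepts n l ∧ l.length < T ∧ f = tabl N n T l

/-- [n5] The number of admissible words is the number of accepting computations (`tabl` is injective on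
the lists shorter than `T`: by induction on `t` the configurations and the choices `l[t]?` agree, read
them off the head cell of row `t ≤ T`). -/
def S_n5 : Prop := S_n0 → S_n1 → S_n4 → S_n2 → S_n3 → S_n3v →
  ∀ (N : NTM) (n T : ℕ), (∀ (l : List N.Tr) (c : N.Cfg), NTM.Path (N.init n) l c → l.length < T) →
    (WPn N).count (Mw n T) (ew n T) (xw n T) (yw n T) = N.numAcc n

/-! ### The algorithm -/

/-- [f1] The algorithm is correct: `S_aev`, `S_rs` (with `S_ty1`; `SS ≥ 1`), `S_wd`, `S_gd`, `S_n5` with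
`T = p n + 1`.  The hypotheses are the conclusions of these pieces. -/
def S_f1 : Prop :=
  (∀ (m S B H : ℕ) (a : Fin m → ℕ) (pi : Fin m → Fin m → ℕ), TyOK m S B H a pi →
    ∀ (R : RS m) (num : (Fin m → ℕ) → (Fin m → ℕ) → Bool),
      algR (ev numGraphs) R num S B H a pi = ∑ X ∈ Sol R num S B, wtX B X) →
  (∀ m S : ℕ, 0 < m → 1 ≤ S → TyOK m S (bB m S) (bH m S) (tya m S) (tyPi m S)) →
  (∀ (P : WP) (p : Par P.r P.b), p.Good → ∀ S B : ℕ, P.SS p ≤ S → S ≤ B →
    (∑ X ∈ Sol P.R (P.num p) S B, wtX B X) * P.ZZ p = P.count p.M p.e p.x p.y * B ! ^ P.m) →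
  (∀ (r b M : ℕ) (e : Fin r → ℕ) (x y : Fin b → ℕ), 0 < M → (∀ j, x j ≤ y j) → (∀ j, y j ≤ M) →
    (mkPar M e x y).Good) →
  (∀ (N : NTM) (n T : ℕ), (∀ (l : List N.Tr) (c : N.Cfg), NTM.Path (N.init n) l c → l.length < T) →
    (WPn N).count (Mw n T) (ew n T) (xw n T) (yw n T) = N.numAcc n) →
  S_pb →
  ∀ (N : NTM) (p : Polynomial ℕ), N.RunsIn p → ∀ n : ℕ, GG N p numGraphs n = N.numAcc n

/-- the conclusion of `S_pal` -/
def C_pal : Prop :=
  ∀ (m : ℕ) (R : RS m) (α : Type) (_ : SCode α) (U : α → ℕ → ℕ)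
    (num : α → (Fin m → ℕ) → (Fin m → ℕ) → Bool) (S B H : α → ℕ) (a : α → Fin m → ℕ)
    (pi : α → Fin m → Fin m → ℕ),
    PB (fun p : α × ℕ => U p.1 p.2) → PTime S → PTime B → PTime H →
    (∀ i, PTime (fun x => a x i)) → (∀ i j, PTime (fun x => pi x i j)) →
    PTime (fun p : α × List ℕ × List ℕ =>
      num p.1 (fun i => p.2.1.getD i 0) (fun i => p.2.2.getD i 0)) →
    PB (fun x => algR (ev (U x)) R (num x) (S x) (B x) (H x) (a x) (pi x))

/-- the conclusion of `S_ty2` -/
def C_ty2 : Prop :=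
  ∀ m : ℕ,
    (∀ (α : Type) (_ : SCode α) (S : α → ℕ), PTime S →
      PTime (fun x => bB m (S x)) ∧ PTime (fun x => bH m (S x)) ∧
      (∀ i : Fin m, PTime (fun x => tya m (S x) i)) ∧
      (∀ i j : Fin m, PTime (fun x => tyPi m (S x) i j))) ∧
    ∃ β : Polynomial ℕ, ∀ S : ℕ, bB m S ≤ β.eval S ∧ bH m S ≤ β.eval S ∧
      ∀ i : Fin m, tya m S i ≤ β.eval S

/-- the conclusion of `S_pss` -/
def C_pss : Prop :=
  ∀ (P : WP) (α : Type) (_ : SCode α) (M : α → ℕ) (e : α → Fin P.r → ℕ) (x y : α → Fin P.b → ℕ),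
    PTime M → (∀ i, PTime (fun a => e a i)) → (∀ j, PTime (fun a => x a j)) →
    (∀ j, PTime (fun a => y a j)) →
    PTime (fun a => P.SS (mkPar (M a) (e a) (x a) (y a))) ∧
    PB (fun a => P.ZZ (mkPar (M a) (e a) (x a) (y a)))

/-- the conclusion of `S_pnm` -/
def C_pnm : Prop :=
  ∀ (P : WP) (α : Type) (_ : SCode α) (M : α → ℕ) (e : α → Fin P.r → ℕ) (x y : α → Fin P.b → ℕ),
    PTime M → (∀ i, PTime (fun a => e a i)) → (∀ j, PTime (fun a => x a j)) →
    (∀ j, PTime (fun a => y a j)) →
    PTime (fun q : α × List ℕ × List ℕ => P.num (mkPar (M q.1) (e q.1) (x q.1) (y q.1))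
      (fun i => q.2.1.getD i 0) (fun i => q.2.2.getD i 0))

/-- the conclusion of `S_lal` -/
def C_lal : Prop :=
  ∀ (m : ℕ) (R : RS m), ∃ β : Polynomial ℕ, ∀ (U U' : ℕ → ℕ) (X : ℕ),
    (∀ i ≤ β.eval X, U i = U' i) →
    ∀ (num : (Fin m → ℕ) → (Fin m → ℕ) → Bool) (S B H : ℕ) (a : Fin m → ℕ)
      (pi : Fin m → Fin m → ℕ), S ≤ X → (∀ i, a i ≤ X) →
      algR (ev U) R num S B H a pi = algR (ev U') R num S B H a pi

/-- [f2] The algorithm in polynomial time, relative to `U`. -/
def S_f2 : Prop := Arith → C_pal → C_ty2 → C_pss → C_pnm →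
  ∀ (N : NTM) (p : Polynomial ℕ) (α : Type) (_ : SCode α) (U : α → ℕ → ℕ),
    PB (fun q : α × ℕ => U q.1 q.2) → PB (fun q : α × ℕ => GG N p (U q.1) q.2)

/-- [f3] The algorithm uses only polynomially many values of `U` (`nat_bound` of `PTab.lean` gives a
polynomial bound for `SS` as a function of `n`, as it is computable in polynomial time in unary). -/
def S_f3 : Prop := C_lal → C_ty2 → C_pss →
  ∀ (N : NTM) (p : Polynomial ℕ), ∃ β : Polynomial ℕ, ∀ (U U' : ℕ → ℕ) (n : ℕ),
    (∀ i ≤ β.eval n, U i = U' i) → GG N p U n = GG N p U' n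

/-! ### Machines -/

/-- [dc] Decoding of `query` in polynomial time (state machine, fold over the word). -/
def S_dc : Prop :=
  ∃ dec : List Bool → ℕ × List Big, PTime dec ∧
    ∀ (n : ℕ) (u : List ℕ), dec (query n u) = (n, u.map (fun v => (⟨v⟩ : Big)))

/-- [m1] From `PTime` to Mathlib's machines with plain words as input and output:
`PTime.exists_tm` (words coded as S-expressions), `HerCo.Cp.ofTM2`, the conversion between a word and
the code `(enc w).bits` of its S-expression (in the calculus of `Pool/Agent/Lib/MP_a28c52_lc`), and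
`HerCo.Cp.toTM2`; or with the machines of `Pool/Agent/Lib/MP_87d05f_lc` (`WordMachine`,
`OutMachine.run_dec`). -/
def S_m1 : Prop :=
  ∀ G : List Bool → List Bool, PTime G →
    Nonempty (TM2ComputableInPolyTime (fun w : List Bool => w) (fun w : List Bool => w) G)

/-- [m2] Composition with a machine for `U` (in the calculus of `Pool/Agent/Lib/MP_a28c52_lc`:
`HerCo.Cp.ofTM2` for both machines, map over the range, `HerCo.Cp.toTM2`). -/
def S_m2 : Prop :=
  ∀ (U : ℕ → ℕ) (p : Polynomial ℕ) (G : List Bool → List Bool),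
    Nonempty (TM2ComputableInPolyTime (fun n : ℕ => List.replicate n true) Nat.bits U) →
    Nonempty (TM2ComputableInPolyTime (fun w : List Bool => w) (fun w : List Bool => w) G) →
    Nonempty (TM2ComputableInPolyTime (fun n : ℕ => List.replicate n true)
      (fun w : List Bool => w) (fun n => G (query n ((List.range (p.eval n + 1)).map U))))

/-- [red] The reduction. -/
def S_red : Prop :=
  (∀ (N : NTM) (p : Polynomial ℕ), N.RunsIn p → ∀ n : ℕ, GG N p numGraphs n = N.numAcc n) →
  (∀ (N : NTM) (p : Polynomial ℕ) (α : Type) (_ : SCode α) (U : α → ℕ → ℕ),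
    PB (fun q : α × ℕ => U q.1 q.2) → PB (fun q : α × ℕ => GG N p (U q.1) q.2)) →
  (∀ (N : NTM) (p : Polynomial ℕ), ∃ β : Polynomial ℕ, ∀ (U U' : ℕ → ℕ) (n : ℕ),
    (∀ i ≤ β.eval n, U i = U' i) → GG N p U n = GG N p U' n) →
  S_dc → S_m1 →
  ∀ f : ℕ → ℕ, IsSharpP1 f → ∃ (p : Polynomial ℕ) (G : List Bool → List Bool),
    Nonempty (TM2ComputableInPolyTime (fun w : List Bool => w) (fun w : List Bool => w) G) ∧
    ∀ n : ℕ, G (query n ((List.range (p.eval n + 1)).map numGraphs)) = Nat.bits (f n)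

end Pool.Agent.Lib.MP_4b91fc_lc.GH
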