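import Pool.Agent.Lib.MP_4b91fc_lc.GH.Defs5
import Pool.Agent.Lib.MP_4b91fc_lc.GH.Stm1

set_option autoImplicit false

/-!
# `#GRAPHS` is complete for `#P_1`: statements, part V (membership)

Each piece `xyz` is a theorem `p_xyz : S_xyz` in `GH/P/xyz.lean`.
-/

namespace Pool.Agent.Lib.MP_4b91fc_lc.GH

open Finset Turing

open scoped Nat

/-- [v0] Counting computations step by step.  (With `Bd c b` the set of the computations is finite.) -/
def S_v0 : Prop :=
  (∀ (N : NTM) (c : N.Cfg), c.Halted → NTM.cnt c = if c.q ∈ N.acc then 1 else 0) ∧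
  (∀ (N : NTM) (c : N.Cfg) (b : ℕ), NTM.Bd c b → ¬ c.Halted →
    NTM.cnt c = ∑ τ ∈ N.δ c.q c.scan, NTM.cnt (c.next τ)) ∧
  (∀ (N : NTM) (c : N.Cfg) (b : ℕ), (∀ τ ∈ N.δ c.q c.scan, NTM.Bd (c.next τ) b) →
    NTM.Bd c (b + 1)) ∧
  (∀ (N : NTM) (c : N.Cfg) (b b' : ℕ), NTM.Bd c b → b ≤ b' → NTM.Bd c b') ∧
  (∀ (N : NTM) (n : ℕ), N.numAcc n = NTM.cnt (N.init n)) ∧
  (∀ (N : NTM) (p : Polynomial ℕ), N.RunsIn p ↔ ∀ n, NTM.Bd (N.init n) (p.eval n))

/-- [v1] The machine of a sweeping system.  Induction on `t`.  One sweep: induction on the rest `L` of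
the word with `P` already written, the head at position `P.length`, tape `W.tp (P ++ L)`, state `sw s`:
the number of accepting computations is `W.swp (W.endv (W.val t)) s P L`, with
`(P.map wt).sum + ph s + (L.map wt).sum` not increasing; at the right end (blank) a continuing state has
`ph s ≥ 1`, so `(P.map wt).sum < t`; the return is deterministic (`P.length` steps to the left to
position `-1`, one step to the right). -/
def S_v1 : Prop := S_v0 →
  ∀ (W : Sw) (wt : W.A → ℕ) (ph : W.S → ℕ),
    (∀ s a, ∀ x ∈ W.tr s a, wt x.2 + ph x.1 ≤ wt a + ph s) → ph W.s0 = 0 →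
    (∀ s, W.fin s = some false → 1 ≤ ph s) →
    ∀ (t : ℕ) (L : List W.A), (L.map wt).sum < t →
      NTM.Bd (N := W.ntm) ⟨MQ.sw W.s0, 0, W.tp L⟩ ((2 * L.length + 3) * t) ∧
      NTM.cnt (N := W.ntm) ⟨MQ.sw W.s0, 0, W.tp L⟩ = W.val t L

/-- [v2m] A sweep which starts inside a block: one of the `1 + O.length + ...` cells is chosen, the
bits `y` of the later blocks are rotated; if the cell is the last one of its block, `y = x` is checked.
(First the `i` done cells; general lemma for `rot` by induction on a block and on the list of blocks: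
the only runs guess `g` = the last bit `y` of each block.) -/
def S_v2m : Prop :=
  ∀ (v : List LA → ℕ) (i : ℕ) (x y : Bool) (O : List (Bool × Bool)) (D : List (List (Bool × Bool))),
    (∀ B ∈ D, B ≠ []) →
    GW.swp (GW.endv v) .s0 []
        (List.replicate i .dn ++ .lt false x y :: (O.map ltf ++ tpe D)) =
      (1 + O.length + (D.map List.length).sum) *
        if O = [] → ∀ B ∈ D, rot1 (B.map Prod.snd) = B.map Prod.fst then
          v (List.replicate (i + 1) .dn ++ (O.map ltf ++ tpe (D.map stp)))
        else 0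

/-- [v2s] A sweep which starts at the first cell of a block: new bits `x` are chosen on the later
blocks, `y` is the rotation of the new `x`. -/
def S_v2s : Prop :=
  ∀ (v : List LA → ℕ) (i : ℕ) (x y : Bool) (O : List (Bool × Bool)) (D : List (List (Bool × Bool))),
    (∀ B ∈ D, B ≠ []) →
    GW.swp (GW.endv v) .s0 []
        (List.replicate i .dn ++ .lt true x y :: (O.map ltf ++ tpe D)) =
      sumX (D.map List.length) (fun Z =>
        if O = [] → ∀ w ∈ Z, rot1 w = w then
          v (List.replicate (i + 1) .dn ++ (O.map ltf ++ tpe (Z.map (fun w => w.zip (rot1 w)))))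
        else 0)

/-- [v4] The number of binary words of length `b` invariant under the rotation by `a`
(`rot1^[a]` is the rotation by `a (b - 1)`, the invariant words are those invariant under the rotation by
`gcd a b`, determined by their first `gcd a b` letters). -/
def S_v4 : Prop :=
  (∀ a b : ℕ, 0 < b →
    (univ.filter (fun w : Fin b → Bool => rot1^[a] (List.ofFn w) = List.ofFn w)).card =
      2 ^ Nat.gcd a b) ∧
  (∀ (a : ℕ) (l : List ℕ), (∀ b ∈ l, 0 < b) →
    sumX l (fun Z => if ∀ w ∈ Z, rot1^[a] w = w then 1 else 0) =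
      2 ^ (l.map (fun b => Nat.gcd a b)).sum)

/-- [v3] The value of a tape with `i` done cells and blocks `D`: for the first block, of length
`a = 1 + O.length`, one sweep `S_v2s`, then `a - 1` sweeps `S_v2m`, with
`O.length + (D'.map length).sum, ..., 1 + (D'.map length).sum` choices; the check is
`rot1^[a] w = w` for all new words `w`; then induction (the value does not depend on the bits). -/
def S_v3 : Prop := S_v2m → S_v2s → S_v4 →
  ∀ (D : List (List (Bool × Bool))) (i t : ℕ), (∀ B ∈ D, B ≠ []) → (D.map List.length).sum < t →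
    GW.val t (List.replicate i .dn ++ tpe D) = gv (D.map List.length)

/-- [v5] The first sweep: the compositions of `n`, and `a / 2` free bits for a block of length `a`. -/
def S_v5 : Prop := S_v2m → S_v2s → S_v4 → S_v3 →
  ∀ n t : ℕ, n + 1 < t →
    GW.val t (List.replicate n .one) =
      ∑ c : Composition n, (c.blocks.map (fun a => 2 ^ (a / 2))).prod * gv c.blocks

/-- [v6] Burnside's sum over the compositions.  For a composition `c` of `n` with multiset `μ` the
summand is `n ! * 2 ^ cc μ * ∏ 1 / (sums of the last parts)` (`cc (a ::ₘ μ) = cc μ + gs a μ + a / 2` by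
`S_cc` with `M = 1`), and the sum over the compositions with multiset `μ` of
`∏ 1 / (sums of the last parts)` is `1 / zee μ` (induction: first part `a`,
`∑_{a ∈ μ} 1 / zee (μ.erase a) = ∑_{a ∈ μ.toFinset} a * μ.count a / zee μ = n / zee μ`). -/
def S_v6 : Prop := S_burn → S_cc → S_zee → S_ptn →
  ∀ n : ℕ, ∑ c : Composition n, (c.blocks.map (fun a => 2 ^ (a / 2))).prod * gv c.blocks =
    n ! * numGraphs n

/-- [v7] `n! U_n` is in `#P_1` (`S_v1` with weights `2, 0, 1` of the letters `one`, `dn`, `lt` and
`ph = 0` for `s0`, `1` for the other states; `t = 2 n + 2`). -/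
def S_v7 : Prop := S_v0 →
  (∀ (W : Sw) (wt : W.A → ℕ) (ph : W.S → ℕ),
    (∀ s a, ∀ x ∈ W.tr s a, wt x.2 + ph x.1 ≤ wt a + ph s) → ph W.s0 = 0 →
    (∀ s, W.fin s = some false → 1 ≤ ph s) →
    ∀ (t : ℕ) (L : List W.A), (L.map wt).sum < t →
      NTM.Bd (N := W.ntm) ⟨MQ.sw W.s0, 0, W.tp L⟩ ((2 * L.length + 3) * t) ∧
      NTM.cnt (N := W.ntm) ⟨MQ.sw W.s0, 0, W.tp L⟩ = W.val t L) →
  (∀ n t : ℕ, n + 1 < t →
    GW.val t (List.replicate n .one) =
      ∑ c : Composition n, (c.blocks.map (fun a => 2 ^ (a / 2))).prod * gv c.blocks) →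
  (∀ n : ℕ, ∑ c : Composition n, (c.blocks.map (fun a => 2 ^ (a / 2))).prod * gv c.blocks =
    n ! * numGraphs n) →
  IsSharpP1 (fun n => n ! * numGraphs n)

/-- [v8] Division by `n!` in polynomial time (machines: the calculus of
`Pool/Agent/Lib/MP_a28c52_lc`, and `PTime` with `Arith`). -/
def S_v8 : Prop :=
  ∀ U : ℕ → ℕ,
    Nonempty (TM2ComputableInPolyTime (fun n : ℕ => List.replicate n true) Nat.bits
      (fun n => n ! * U n)) →
    Nonempty (TM2ComputableInPolyTime (fun n : ℕ => List.replicate n true) Nat.bits U)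

end Pool.Agent.Lib.MP_4b91fc_lc.GH
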